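import Pool.Agent.W803.QC

/-!
The map `f` of `Pool.Agent.W803.QC` is a self-homeomorphism of the plane.
-/

set_option autoImplicit false

open MeasureTheory Filter Topology Metric

namespace Pool.Agent.W803.QC

lemma m_cont {q : ℝ} : Continuous (m q) := by
  unfold m
  fun_prop

lemma g_cont {q : ℝ} (hq : 0 < q) : Continuous (g q) := by
  unfold g
  apply Continuous.div continuous_const
  · exact Real.continuous_sqrt.comp m_cont
  · intro s
    exact (Real.sqrt_pos.mpr (m_pos hq s)).ne'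

lemma g_ge_one {q : ℝ} (hq : 0 < q) (hq1 : q ≤ 1) (s : ℝ) : 1 ≤ g q s := by
  unfold g
  have h1 := Real.sqrt_pos.mpr (m_pos hq s)
  rw [le_div_iff₀ h1, one_mul]
  calc Real.sqrt (m q s) ≤ Real.sqrt 1 := Real.sqrt_le_sqrt (m_le_one hq hq1 s)
    _ = 1 := Real.sqrt_one

lemma S_surj {q : ℝ} (hq : 0 < q) (hq1 : q ≤ 1) {w : E} (hw : ‖w‖ < q ^ 2) :
    ∃ u : E, ‖u‖ < q ^ 2 ∧ S q u = w := by
  have hq2 : 0 < q ^ 2 := by positivity
  by_cases h0 : w = 0
  · refine ⟨0, by simpa using hq2, ?_⟩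
    unfold S
    rw [smul_zero, h0]
  have hw0 : 0 < ‖w‖ := norm_pos_iff.mpr h0
  have hc : ContinuousOn (fun t : ℝ => g q t * t) (Set.Icc 0 (q ^ 2)) :=
    ((g_cont hq).mul continuous_id).continuousOn
  have h1 := intermediate_value_Icc hq2.le hc
  have h2 : ‖w‖ ∈ Set.Icc (g q 0 * 0) (g q (q ^ 2) * q ^ 2) := by
    rw [mul_zero, g_one hq hq1 le_rfl, one_mul]
    exact ⟨hw0.le, hw.le⟩
  obtain ⟨t, ht, hgt⟩ := h1 h2
  simp only at hgt
  have ht2 : t < q ^ 2 := by
    have := g_ge_one hq hq1 t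
    nlinarith [ht.1]
  refine ⟨(t / ‖w‖) • w, ?_, ?_⟩
  · rw [norm_smul, Real.norm_eq_abs, abs_of_nonneg (by have := ht.1; positivity),
      div_mul_cancel₀ _ hw0.ne']
    exact ht2
  · unfold S
    rw [norm_smul, Real.norm_eq_abs, abs_of_nonneg (by have := ht.1; positivity),
      div_mul_cancel₀ _ hw0.ne', smul_smul, ← mul_div_assoc, hgt, div_self hw0.ne', one_smul]

lemma f_surj : Function.Surjective f := by
  intro y
  by_cases h : ∃ k, y ∈ B k
  · obtain ⟨k, hk⟩ := h
    have hk' := hk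
    unfold B at hk'
    rw [mem_ball, dist_eq_norm] at hk'
    obtain ⟨u, hu, hSu⟩ := S_surj (qq_pos k) ((qq_le k).trans (by norm_num)) hk'
    refine ⟨c k + u, ?_⟩
    have hB : c k + u ∈ B k := by
      unfold B
      rw [mem_ball, dist_eq_norm, add_sub_cancel_left]
      exact hu
    rw [f_in hB]
    unfold R
    rw [add_sub_cancel_left, hSu]
    abel
  · exact ⟨y, f_out (fun k hk => h ⟨k, hk⟩)⟩

lemma f_expand (x y : E) : dist x y ≤ 4 * dist (f x) (f y) := by
  have hd := dist_nonneg (x := x) (y := y)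
  by_cases h : ∀ k, ¬ (x ∈ B k ∧ y ∈ B k)
  · have := (f_far h).1
    linarith
  · push Not at h
    obtain ⟨k, hx, hy⟩ := h
    have h1 := (f_near hx hy).1
    have h2 := g_ge_one (qq_pos k) ((qq_le k).trans (by norm_num))
      (max ‖x - c k‖ ‖y - c k‖)
    nlinarith

/-- `f` as a homeomorphism of the plane -/
noncomputable def F : E ≃ₜ E where
  toEquiv := Equiv.ofBijective f ⟨f_inj, f_surj⟩
  continuous_toFun := f_cont
  continuous_invFun := by
    have : LipschitzWith 4 (Equiv.ofBijective f ⟨f_inj, f_surj⟩).symm := by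
      apply LipschitzWith.of_dist_le_mul
      intro a b
      obtain ⟨x, rfl⟩ := f_surj a
      obtain ⟨y, rfl⟩ := f_surj b
      have hx : (Equiv.ofBijective f ⟨f_inj, f_surj⟩).symm (f x) = x :=
        Equiv.ofBijective_symm_apply_apply f _ x
      have hy : (Equiv.ofBijective f ⟨f_inj, f_surj⟩).symm (f y) = y :=
        Equiv.ofBijective_symm_apply_apply f _ y
      rw [hx, hy]
      exact f_expand x y
    exact this.continuous

lemma F_apply (x : E) : F x = f x := rfl

end Pool.Agent.W803.QC
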