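import Pool.Agent.W979.TE.Defs3

set_option autoImplicit false

open Classical

namespace Pool.Agent.W803.TE3

open Pool.Agent.W715.BC Pool.Agent.W979.TE3

theorem card_fun {A : Type} [Fintype A] (X : Finset A) (k : ℕ) :
    (Finset.univ.filter (fun Q : Fin k → A => ∀ i, Q i ∈ X)).card = X.card ^ k := by
  have : Finset.univ.filter (fun Q : Fin k → A => ∀ i, Q i ∈ X) =
      Fintype.piFinset (fun _ => X) := by
    ext Q
    simp [Fintype.mem_piFinset]
  rw [this, Fintype.card_piFinset]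
  simp

theorem card_fun_adj {A B : Type} [Fintype A] (r : A → B → Prop) (X : Finset A) (q : ℕ)
    (i : Fin (q + 1)) (y : B) :
    (Finset.univ.filter (fun Q : Fin (q + 1) → A => r (Q i) y ∧ ∀ j, Q j ∈ X)).card =
      (X.filter (fun u => r u y)).card * X.card ^ q := by
  have : Finset.univ.filter (fun Q : Fin (q + 1) → A => r (Q i) y ∧ ∀ j, Q j ∈ X) =
      Fintype.piFinset (fun j => if j = i then X.filter (fun u => r u y) else X) := by
    ext Q
    rw [Finset.mem_filter, Fintype.mem_piFinset]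
    constructor
    · rintro ⟨_, h1, h2⟩ j
      split_ifs with h
      · subst h
        exact Finset.mem_filter.2 ⟨h2 _, h1⟩
      · exact h2 j
    · intro h
      refine ⟨Finset.mem_univ _, ?_, ?_⟩
      · have := h i
        rw [if_pos rfl, Finset.mem_filter] at this
        exact this.2
      · intro j
        have := h j
        split_ifs at this with h'
        · exact (Finset.mem_filter.1 this).1
        · exact this
  rw [this, Fintype.card_piFinset, Fin.prod_univ_succAbove _ i, if_pos rfl]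
  simp [Fin.succAbove_ne]

theorem cn_comm {A B : Type} [Fintype B] (r : A → B → Prop) (x x' : A) : cn r x x' = cn r x' x := by
  unfold cn
  ext y
  simp [and_comm]

theorem lk_symm {A B : Type} [Fintype B] {r : A → B → Prop} {L : ℕ} {x x' : A}
    (h : Lk r L x x') : Lk r L x' x := by
  unfold Lk at *
  rw [cn_comm r x' x]
  exact ⟨h.1.symm, h.2⟩

theorem mem_Ft {A B : Type} [Fintype A] [Fintype B] {r : A → B → Prop} {L k : ℕ}
    {Q : Fin k → A} {u : A} : u ∈ Ft r L Q ↔ ∀ i, Lk r L u (Q i) := by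
  simp [Ft]

theorem ft_swap {A B : Type} [Fintype A] [Fintype B] (r : A → B → Prop) (L : ℕ) {k m : ℕ}
    (w : Fin k → A) (Q : Fin m → A) : (∀ l, w l ∈ Ft r L Q) ↔ ∀ j, Q j ∈ Ft r L w := by
  constructor
  · intro h j
    rw [mem_Ft]
    intro l
    exact lk_symm (mem_Ft.1 (h l) j)
  · intro h l
    rw [mem_Ft]
    intro j
    exact lk_symm (mem_Ft.1 (h j) l)

theorem dc_univ (hDC : S_DC) {A B : Type} [Fintype A] [Fintype B] (r : A → B → Prop)
    (L k m : ℕ) : ∑ Q : Fin k → A, (Ft r L Q).card ^ m =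
      ∑ w : Fin m → A, (Ft r L w).card ^ k := by
  rw [hDC A B r L k m Finset.univ]
  refine Finset.sum_congr rfl fun w _ => ?_
  exact card_fun _ _

theorem card_lk {A B : Type} [Fintype A] [Fintype B] {r : A → B → Prop} {D K : ℕ}
    (hr : Reg r D K) (L : ℕ) (x : A) :
    (Finset.univ.filter (fun u : A => Lk r L u x)).card ≤ (K * D) ^ 2 := by
  have h1 : Finset.univ.filter (fun u : A => Lk r L u x) ⊆
      (Finset.univ.filter (fun y : B => r x y)).biUnion
        (fun y => Finset.univ.filter (fun u : A => r u y)) := by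
    intro u hu
    rw [Finset.mem_filter] at hu
    obtain ⟨y, hy⟩ := hu.2.2.1
    unfold cn at hy
    rw [Finset.mem_filter] at hy
    rw [Finset.mem_biUnion]
    exact ⟨y, Finset.mem_filter.2 ⟨Finset.mem_univ _, hy.2.2⟩,
      Finset.mem_filter.2 ⟨Finset.mem_univ _, hy.2.1⟩⟩
  refine (Finset.card_le_card h1).trans ?_
  refine Finset.card_biUnion_le.trans ?_
  calc ∑ y ∈ Finset.univ.filter (fun y : B => r x y),
        (Finset.univ.filter (fun u : A => r u y)).card
      ≤ ∑ _y ∈ Finset.univ.filter (fun y : B => r x y), K * D :=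
        Finset.sum_le_sum fun y _ => hr.ub y
    _ = (Finset.univ.filter (fun y : B => r x y)).card * (K * D) := by
        rw [Finset.sum_const, smul_eq_mul]
    _ ≤ (K * D) * (K * D) := Nat.mul_le_mul_right _ (hr.ua x)
    _ = (K * D) ^ 2 := (sq _).symm

theorem sum_ft (hDC : S_DC) {A B : Type} [Fintype A] [Fintype B] {r : A → B → Prop} {D K : ℕ}
    (hr : Reg r D K) (L q : ℕ) :
    ∑ Q : Fin (q + 1) → A, (Ft r L Q).card ≤ Fintype.card A * (K * D) ^ (2 * q + 2) := by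
  have h1 := dc_univ hDC r L (q + 1) 1
  simp only [pow_one] at h1
  rw [h1]
  calc ∑ w : Fin 1 → A, (Ft r L w).card ^ (q + 1)
      ≤ ∑ _w : Fin 1 → A, ((K * D) ^ 2) ^ (q + 1) := by
        refine Finset.sum_le_sum fun w _ => Nat.pow_le_pow_left ?_ _
        refine le_trans (Finset.card_le_card ?_) (card_lk hr L (w 0))
        intro u hu
        rw [mem_Ft] at hu
        exact Finset.mem_filter.2 ⟨Finset.mem_univ _, hu 0⟩
    _ = Fintype.card A * (K * D) ^ (2 * q + 2) := by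
        rw [Finset.sum_const, smul_eq_mul, Finset.card_univ, ← pow_mul]
        congr 1
        simp

theorem card_B {A B : Type} [Fintype A] [Fintype B] {r : A → B → Prop} {D K : ℕ}
    (hr : Reg r D K) (hD : 0 < D) : Fintype.card B ≤ K * Fintype.card A := by
  have h1 : ∑ b : B, deg2 r b = ∑ a : A, deg1 r a := by
    unfold deg1 deg2
    simp only [Finset.card_filter]
    exact Finset.sum_comm
  have h2 : Fintype.card B * D ≤ ∑ b : B, deg2 r b := by
    rw [← smul_eq_mul, ← Finset.card_univ, ← Finset.sum_const]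
    exact Finset.sum_le_sum fun b _ => hr.lb b
  have h3 : ∑ a : A, deg1 r a ≤ Fintype.card A * (K * D) := by
    rw [← smul_eq_mul (Fintype.card A), ← Finset.card_univ, ← Finset.sum_const]
    exact Finset.sum_le_sum fun a _ => hr.ua a
  have h4 : Fintype.card B * D ≤ (K * Fintype.card A) * D := by
    calc Fintype.card B * D ≤ Fintype.card A * (K * D) := h2.trans (h1 ▸ h3)
      _ = (K * Fintype.card A) * D := by ring
  exact Nat.le_of_mul_le_mul_right h4 hD

/-- the interchange of summation for the poor tuples -/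
theorem swap_sum {A B : Type} [Fintype A] [Fintype B] (r : A → B → Prop) (L q : ℕ)
    (i : Fin (q + 1)) :
    ∑ Q : Fin (q + 1) → A, ∑ y ∈ Finset.univ.filter (fun y : B => r (Q i) y),
      (Finset.univ.filter (fun w : Fin q → A => Nice r L w ∧
        ∀ l, w l ∈ (Ft r L Q).filter (fun u => r u y))).card =
    ∑ w ∈ Finset.univ.filter (fun w : Fin q → A => Nice r L w),
      ∑ y ∈ Finset.univ.filter (fun y : B => ∀ i, r (w i) y),
        ((Ft r L w).filter (fun u => r u y)).card * (Ft r L w).card ^ q := by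
  have h1 : ∀ Q : Fin (q + 1) → A, ∑ y ∈ Finset.univ.filter (fun y : B => r (Q i) y),
      (Finset.univ.filter (fun w : Fin q → A => Nice r L w ∧
        ∀ l, w l ∈ (Ft r L Q).filter (fun u => r u y))).card =
      ∑ w : Fin q → A, ∑ y : B, if Nice r L w ∧ (∀ l, r (w l) y) ∧
        (r (Q i) y ∧ ∀ j, Q j ∈ Ft r L w) then 1 else 0 := by
    intro Q
    rw [Finset.sum_comm, Finset.sum_filter]
    refine Finset.sum_congr rfl fun y _ => ?_
    rw [Finset.card_filter]
    split_ifs with h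
    · refine Finset.sum_congr rfl fun w _ => ?_
      refine if_congr ?_ rfl rfl
      rw [← ft_swap]
      simp only [Finset.mem_filter]
      constructor
      · rintro ⟨h1, h2⟩
        exact ⟨h1, fun l => (h2 l).2, h, fun l => (h2 l).1⟩
      · rintro ⟨h1, h2, _, h3⟩
        exact ⟨h1, fun l => ⟨h3 l, h2 l⟩⟩
    · symm
      refine Finset.sum_eq_zero fun w _ => ?_
      rw [if_neg]
      rintro ⟨_, _, h', _⟩
      exact h h'
  rw [Finset.sum_congr rfl fun Q _ => h1 Q, Finset.sum_comm, Finset.sum_filter]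
  refine Finset.sum_congr rfl fun w _ => ?_
  rw [Finset.sum_comm]
  split_ifs with h
  · rw [Finset.sum_filter]
    refine Finset.sum_congr rfl fun y _ => ?_
    split_ifs with h'
    · rw [← card_fun_adj r (Ft r L w) q i y, Finset.card_filter]
      refine Finset.sum_congr rfl fun Q _ => ?_
      refine if_congr ?_ rfl rfl
      tauto
    · refine Finset.sum_eq_zero fun Q _ => ?_
      rw [if_neg]
      tauto
  · refine Finset.sum_eq_zero fun y _ => Finset.sum_eq_zero fun Q _ => ?_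
    rw [if_neg]
    tauto

/-- the number of nice tuples in a set -/
theorem nice_half (s q t N0 : ℕ)
    (hNB : ∀ (A B : Type) [Fintype A] [Fintype B] (r : A → B → Prop) (X : Finset A),
      ¬ SBlow r s q t → N0 ≤ X.card →
      ((Finset.univ.filter (fun Q : Fin q → A =>
        (∀ i, Q i ∈ X) ∧ ¬ Nice r (LT s q t) Q)).card : ℝ) ≤ 1 / 2 * (X.card : ℝ) ^ q)
    {A B : Type} [Fintype A] [Fintype B] (r : A → B → Prop) (hB : ¬ SBlow r s q t)
    (X : Finset A) (hX : N0 ≤ X.card) :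
    X.card ^ q ≤ 2 * (Finset.univ.filter (fun w : Fin q → A => Nice r (LT s q t) w ∧
      ∀ l, w l ∈ X)).card := by
  have h1 := hNB A B r X hB hX
  have h2 : (Finset.univ.filter (fun w : Fin q → A => Nice r (LT s q t) w ∧
      ∀ l, w l ∈ X)).card + (Finset.univ.filter (fun Q : Fin q → A =>
        (∀ i, Q i ∈ X) ∧ ¬ Nice r (LT s q t) Q)).card = X.card ^ q := by
    rw [← card_fun X q]
    rw [← Finset.card_filter_add_card_filter_not (s := Finset.univ.filter
      (fun Q : Fin q → A => ∀ i, Q i ∈ X)) (fun Q => Nice r (LT s q t) Q), Finset.filter_filter,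
      Finset.filter_filter]
    congr 2
    ext w
    simp only [Finset.mem_filter]
    tauto
  have h3 : ((Finset.univ.filter (fun w : Fin q → A => Nice r (LT s q t) w ∧
      ∀ l, w l ∈ X)).card : ℝ) + ((Finset.univ.filter (fun Q : Fin q → A =>
        (∀ i, Q i ∈ X) ∧ ¬ Nice r (LT s q t) Q)).card : ℝ) = (X.card : ℝ) ^ q := by
    exact_mod_cast h2
  have h4 : (X.card : ℝ) ^ q ≤ 2 * ((Finset.univ.filter (fun w : Fin q → A =>
      Nice r (LT s q t) w ∧ ∀ l, w l ∈ X)).card : ℝ) := by linarith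
  exact_mod_cast h4

/-- the poor tuples -/
theorem poor (s q t M2 N0 M1 : ℕ) (hDICH : S_DICH)
    (hNB : ∀ (A B : Type) [Fintype A] [Fintype B] (r : A → B → Prop) (X : Finset A),
      ¬ SBlow r s q t → N0 ≤ X.card →
      ((Finset.univ.filter (fun Q : Fin q → A =>
        (∀ i, Q i ∈ X) ∧ ¬ Nice r (LT s q t) Q)).card : ℝ) ≤ 1 / 2 * (X.card : ℝ) ^ q)
    {A B : Type} [Fintype A] [Fintype B] (r : A → B → Prop) (hB : ¬ SBlow r s q t)
    (hM1 : (M2 * (q + 1) + (q + 1) ^ 2 * LT s q t) * N0 ≤ M1) (hM1' : 1 ≤ M1)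
    (Q : Fin (q + 1) → A) (hQ : Nice r (LT s q t) Q) (hQ1 : M1 ≤ (Ft r (LT s q t) Q).card)
    (hQ2 : ¬ Rich r (LT s q t) M2 Q) :
    (Ft r (LT s q t) Q).card ^ q ≤ 2 * (M2 * (q + 1) + (q + 1) ^ 2 * LT s q t) ^ q *
      ∑ i : Fin (q + 1), ∑ y ∈ Finset.univ.filter (fun y : B => r (Q i) y),
      (Finset.univ.filter (fun w : Fin q → A => Nice r (LT s q t) w ∧
        ∀ l, w l ∈ (Ft r (LT s q t) Q).filter (fun u => r u y))).card := by
  set Δ := M2 * (q + 1) + (q + 1) ^ 2 * LT s q t with hΔ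
  have hΔ0 : 0 < Δ := by
    have h1 : 0 < (q + 1) ^ 2 * LT s q t := by
      unfold Pool.Agent.W979.TE3.LT
      positivity
    omega
  obtain ⟨y, i, hy, hle⟩ := hDICH A B r (LT s q t) M2 (q + 1) Q (by omega) hQ hQ2
    (Finset.card_pos.1 (by omega))
  rw [← hΔ] at hle
  set X := (Ft r (LT s q t) Q).filter (fun u => r u y) with hX
  have hXN : N0 ≤ X.card := by
    apply Nat.le_of_mul_le_mul_left _ hΔ0
    exact hM1.trans (hQ1.trans hle)
  have h1 := nice_half s q t N0 hNB r hB X hXN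
  calc (Ft r (LT s q t) Q).card ^ q ≤ (Δ * X.card) ^ q := Nat.pow_le_pow_left hle q
    _ = Δ ^ q * X.card ^ q := Nat.mul_pow _ _ _
    _ ≤ Δ ^ q * (2 * (Finset.univ.filter (fun w : Fin q → A => Nice r (LT s q t) w ∧
          ∀ l, w l ∈ X)).card) := Nat.mul_le_mul_left _ h1
    _ = 2 * Δ ^ q * (Finset.univ.filter (fun w : Fin q → A => Nice r (LT s q t) w ∧
          ∀ l, w l ∈ X)).card := by ring
    _ ≤ _ := by
        apply Nat.mul_le_mul_left
        refine le_trans ?_ (Finset.single_le_sum (f := fun i : Fin (q + 1) =>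
          ∑ y ∈ Finset.univ.filter (fun y : B => r (Q i) y),
            (Finset.univ.filter (fun w : Fin q → A => Nice r (LT s q t) w ∧
              ∀ l, w l ∈ (Ft r (LT s q t) Q).filter (fun u => r u y))).card)
          (fun _ _ => Nat.zero_le _) (Finset.mem_univ i))
        exact Finset.single_le_sum (f := fun y : B =>
            (Finset.univ.filter (fun w : Fin q → A => Nice r (LT s q t) w ∧
              ∀ l, w l ∈ (Ft r (LT s q t) Q).filter (fun u => r u y))).card)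
          (fun _ _ => Nat.zero_le _) (Finset.mem_filter.2 ⟨Finset.mem_univ y, hy⟩)

/-- total weight of the nice tuples of size at least `M1` -/
noncomputable def HT {A B : Type} [Fintype A] [Fintype B] (r : A → B → Prop) (L M1 q : ℕ) : ℕ :=
  ∑ Q ∈ Finset.univ.filter (fun Q : Fin (q + 1) → A => Nice r L Q ∧ M1 ≤ (Ft r L Q).card),
    (Ft r L Q).card ^ q

/-- total weight of the poor tuples -/
noncomputable def PT {A B : Type} [Fintype A] [Fintype B] (r : A → B → Prop) (L M1 M2 q : ℕ) :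
    ℕ :=
  ∑ Q ∈ Finset.univ.filter (fun Q : Fin (q + 1) → A => Nice r L Q ∧ M1 ≤ (Ft r L Q).card ∧
    ¬ Rich r L M2 Q), (Ft r L Q).card ^ q

theorem HT_split {A B : Type} [Fintype A] [Fintype B] (r : A → B → Prop) (L M1 M2 q : ℕ) :
    HT r L M1 q = RW r L M1 M2 q + PT r L M1 M2 q := by
  unfold HT RW PT
  rw [← Finset.sum_filter_add_sum_filter_not (Finset.univ.filter
    (fun Q : Fin (q + 1) → A => Nice r L Q ∧ M1 ≤ (Ft r L Q).card)) (fun Q => Rich r L M2 Q),
    Finset.filter_filter, Finset.filter_filter]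
  simp only [and_assoc]

theorem HT_ge {A B : Type} [Fintype A] [Fintype B] (r : A → B → Prop) (L M1 q : ℕ) (hq : 1 ≤ q) :
    M1 ^ (q - 1) * HW r L M1 q ≤ HT r L M1 q := by
  unfold HT HW
  rw [Finset.mul_sum]
  refine Finset.sum_le_sum fun Q hQ => ?_
  rw [Finset.mem_filter] at hQ
  obtain ⟨j, rfl⟩ : ∃ j, q = j + 1 := ⟨q - 1, by omega⟩
  rw [Nat.add_sub_cancel, pow_succ]
  exact Nat.mul_le_mul_right _ (Nat.pow_le_pow_left hQ.2.2 j)

theorem AW_le {A B : Type} [Fintype A] [Fintype B] (r : A → B → Prop) (L M1 q : ℕ) (hq : 1 ≤ q) :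
    AW r L q ≤ HT r L M1 q + M1 ^ (q - 1) * (∑ Q : Fin (q + 1) → A, (Ft r L Q).card) +
      ∑ Q ∈ Finset.univ.filter (fun Q : Fin (q + 1) → A => ¬ Nice r L Q), (Ft r L Q).card ^ q := by
  unfold AW HT
  rw [Finset.sum_filter, Finset.sum_filter, Finset.mul_sum, ← Finset.sum_add_distrib,
    ← Finset.sum_add_distrib]
  refine Finset.sum_le_sum fun Q _ => ?_
  by_cases h1 : Nice r L Q
  · by_cases h2 : M1 ≤ (Ft r L Q).card
    · rw [if_pos ⟨h1, h2⟩]
      omega
    · have h3 : (Ft r L Q).card ^ q ≤ M1 ^ (q - 1) * (Ft r L Q).card := by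
        obtain ⟨j, rfl⟩ : ∃ j, q = j + 1 := ⟨q - 1, by omega⟩
        rw [Nat.add_sub_cancel, pow_succ]
        exact Nat.mul_le_mul_right _ (Nat.pow_le_pow_left (by omega) j)
      omega
  · rw [if_pos h1]
    omega

theorem nonnice (hDC : S_DC) (s q t N0 : ℕ)
    (hNB : ∀ (A B : Type) [Fintype A] [Fintype B] (r : A → B → Prop) (X : Finset A),
      ¬ SBlow r s q t → N0 ≤ X.card →
      ((Finset.univ.filter (fun Q : Fin (q + 1) → A =>
        (∀ i, Q i ∈ X) ∧ ¬ Nice r (LT s q t) Q)).card : ℝ) ≤ 1 / 2 * (X.card : ℝ) ^ (q + 1))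
    {A B : Type} [Fintype A] [Fintype B] (r : A → B → Prop) (hB : ¬ SBlow r s q t) :
    ((∑ Q ∈ Finset.univ.filter (fun Q : Fin (q + 1) → A => ¬ Nice r (LT s q t) Q),
      (Ft r (LT s q t) Q).card ^ q : ℕ) : ℝ) ≤ 1 / 2 * (AW r (LT s q t) q : ℝ) +
        (Fintype.card A : ℝ) ^ q * (N0 : ℝ) ^ (q + 1) := by
  rw [hDC A B r (LT s q t) (q + 1) q]
  have h1 : AW r (LT s q t) q = ∑ w : Fin q → A, (Ft r (LT s q t) w).card ^ (q + 1) :=
    dc_univ hDC r (LT s q t) (q + 1) q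
  rw [h1]
  have h2 : (Fintype.card A : ℝ) ^ q * (N0 : ℝ) ^ (q + 1) =
      ∑ _w : Fin q → A, (N0 : ℝ) ^ (q + 1) := by
    rw [Finset.sum_const, Finset.card_univ, nsmul_eq_mul]
    simp
  rw [h2]
  push_cast
  rw [Finset.mul_sum, ← Finset.sum_add_distrib]
  refine Finset.sum_le_sum fun w _ => ?_
  have h3 : Finset.filter (fun Q : Fin (q + 1) → A => ∀ i, Q i ∈ Ft r (LT s q t) w)
      (Finset.univ.filter (fun Q : Fin (q + 1) → A => ¬ Nice r (LT s q t) Q)) =
      Finset.univ.filter (fun Q : Fin (q + 1) → A =>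
        (∀ i, Q i ∈ Ft r (LT s q t) w) ∧ ¬ Nice r (LT s q t) Q) := by
    ext Q
    simp only [Finset.mem_filter]
    tauto
  rw [h3]
  by_cases h4 : N0 ≤ (Ft r (LT s q t) w).card
  · have := hNB A B r (Ft r (LT s q t) w) hB h4
    have h5 : (0 : ℝ) ≤ (N0 : ℝ) ^ (q + 1) := by positivity
    linarith
  · have h5 : (Finset.univ.filter (fun Q : Fin (q + 1) → A =>
        (∀ i, Q i ∈ Ft r (LT s q t) w) ∧ ¬ Nice r (LT s q t) Q)).card ≤ N0 ^ (q + 1) := by
      refine le_trans ?_ (Nat.pow_le_pow_left (not_le.1 h4).le (q + 1))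
      rw [← card_fun]
      refine Finset.card_le_card fun Q hQ => ?_
      rw [Finset.mem_filter] at hQ ⊢
      exact ⟨hQ.1, hQ.2.1⟩
    have h6 : ((Finset.univ.filter (fun Q : Fin (q + 1) → A =>
        (∀ i, Q i ∈ Ft r (LT s q t) w) ∧ ¬ Nice r (LT s q t) Q)).card : ℝ) ≤
        (N0 : ℝ) ^ (q + 1) := by exact_mod_cast h5
    have h7 : (0 : ℝ) ≤ 1 / 2 * ((Ft r (LT s q t) w).card : ℝ) ^ (q + 1) := by positivity
    linarith

theorem PT_le (s q t M2 N0 M1 : ℕ) (hDICH : S_DICH)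
    (hNB : ∀ (A B : Type) [Fintype A] [Fintype B] (r : A → B → Prop) (X : Finset A),
      ¬ SBlow r s q t → N0 ≤ X.card →
      ((Finset.univ.filter (fun Q : Fin q → A =>
        (∀ i, Q i ∈ X) ∧ ¬ Nice r (LT s q t) Q)).card : ℝ) ≤ 1 / 2 * (X.card : ℝ) ^ q)
    {A B : Type} [Fintype A] [Fintype B] (r : A → B → Prop) (hB : ¬ SBlow r s q t)
    (hM1 : (M2 * (q + 1) + (q + 1) ^ 2 * LT s q t) * N0 ≤ M1) (hM1' : 1 ≤ M1) :
    PT r (LT s q t) M1 M2 q ≤ 2 * (M2 * (q + 1) + (q + 1) ^ 2 * LT s q t) ^ q * ((q + 1) *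
      ∑ w ∈ Finset.univ.filter (fun w : Fin q → A => Nice r (LT s q t) w),
      ∑ y ∈ Finset.univ.filter (fun y : B => ∀ i, r (w i) y),
        ((Ft r (LT s q t) w).filter (fun u => r u y)).card * (Ft r (LT s q t) w).card ^ q) := by
  unfold PT
  have h1 : ∑ Q ∈ Finset.univ.filter (fun Q : Fin (q + 1) → A => Nice r (LT s q t) Q ∧
      M1 ≤ (Ft r (LT s q t) Q).card ∧ ¬ Rich r (LT s q t) M2 Q), (Ft r (LT s q t) Q).card ^ q ≤
      ∑ Q : Fin (q + 1) → A, 2 * (M2 * (q + 1) + (q + 1) ^ 2 * LT s q t) ^ q *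
      ∑ i : Fin (q + 1), ∑ y ∈ Finset.univ.filter (fun y : B => r (Q i) y),
      (Finset.univ.filter (fun w : Fin q → A => Nice r (LT s q t) w ∧
        ∀ l, w l ∈ (Ft r (LT s q t) Q).filter (fun u => r u y))).card := by
    refine (Finset.sum_le_sum fun Q hQ => ?_).trans
      (Finset.sum_le_sum_of_subset_of_nonneg (Finset.filter_subset _ _)
        (fun _ _ _ => Nat.zero_le _))
    rw [Finset.mem_filter] at hQ
    exact poor s q t M2 N0 M1 hDICH hNB r hB hM1 hM1' Q hQ.2.1 hQ.2.2.1 hQ.2.2.2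
  refine h1.trans (le_of_eq ?_)
  rw [← Finset.mul_sum, Finset.sum_comm]
  congr 1
  rw [Finset.sum_congr rfl fun i _ => swap_sum r (LT s q t) q i, Finset.sum_const,
    Finset.card_univ, Fintype.card_fin, smul_eq_mul]

theorem w1 : S_DICH → S_NB → S_DC → S_TB → S_W1 := by
  intro hDICH hNB hDC hTB s q t K M2 η hq hK hη
  have hK0 : (0 : ℝ) < K := by exact_mod_cast hK
  obtain ⟨N0, hN0⟩ := hNB s q t (q + 1) (1 / 2) (by norm_num)
  obtain ⟨N0', hN0'⟩ := hNB s q t q (1 / 2) (by norm_num)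
  set Λ1 : ℝ := 2 * (1 + (K : ℝ) ^ (2 * q + 2) / η + 1 / η) with hΛ1
  have hΛ10 : 0 < Λ1 := by positivity
  refine ⟨2 * Λ1, by positivity, fun Ms => ?_⟩
  set Δ : ℕ := M2 * (q + 1) + (q + 1) ^ 2 * LT s q t with hΔ
  have hL0 : 0 < LT s q t := by
    unfold Pool.Agent.W979.TE3.LT
    positivity
  have hL0' : (0 : ℝ) < LT s q t := by exact_mod_cast hL0
  have hΔ0 : 0 < Δ := by
    have h1 : 0 < (q + 1) ^ 2 * LT s q t := by positivity
    omega
  have hΔ0' : (0 : ℝ) < Δ := by exact_mod_cast hΔ0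
  refine ⟨max (max Ms 1) (Δ * N0'), (le_max_left _ _).trans (le_max_left _ _), ?_⟩
  set M1 := max (max Ms 1) (Δ * N0') with hM1
  have hM11 : 1 ≤ M1 := (le_max_right _ _).trans (le_max_left _ _)
  have hM12 : Δ * N0' ≤ M1 := le_max_right _ _
  set lam : ℝ := 8 * (Δ : ℝ) ^ q * (q + 1) * LT s q t * K * Λ1 with hlam
  have hlam0 : 0 < lam := by positivity
  set c2 : ℝ := 2 * (Δ : ℝ) ^ q * (q + 1) * (K : ℝ) ^ (q + 2) * lam ^ q with hc2
  have hc20 : 0 < c2 := by positivity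
  refine ⟨max (max 1 ((N0 : ℝ) ^ (q + 1))) (4 * c2 / η), ?_⟩
  intro A B _ _ _ r D hr hCD hCA hBl hHW
  set a : ℝ := (Fintype.card A : ℝ) with ha
  have ha0 : 0 ≤ a := Nat.cast_nonneg _
  have hD1 : (1 : ℝ) ≤ D := ((le_max_left _ _).trans (le_max_left _ _)).trans hCD
  have hD0 : (0 : ℝ) < D := by linarith
  have hD0' : 0 < D := by exact_mod_cast hD0
  have hDc2 : 4 * c2 / η ≤ D := (le_max_right _ _).trans hCD
  set S : ℝ := a * (D : ℝ) ^ (2 * q + 2) with hS
  have hS0 : 0 ≤ S := by positivity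
  have hHW' : η * S ≤ (HW r (LT s q t) M1 q : ℝ) := by
    rw [hS, ← mul_assoc]
    exact hHW
  -- (a), (b)
  have h1 : (M1 : ℝ) ^ (q - 1) * (HW r (LT s q t) M1 q : ℝ) ≤ (HT r (LT s q t) M1 q : ℝ) := by
    exact_mod_cast HT_ge r (LT s q t) M1 q (by omega)
  have hM1r : (1 : ℝ) ≤ (M1 : ℝ) ^ (q - 1) := one_le_pow₀ (by exact_mod_cast hM11)
  have h2 : η * S ≤ (HT r (LT s q t) M1 q : ℝ) := by
    refine le_trans ?_ h1
    calc η * S ≤ (HW r (LT s q t) M1 q : ℝ) := hHW'
      _ = 1 * (HW r (LT s q t) M1 q : ℝ) := (one_mul _).symm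
      _ ≤ _ := mul_le_mul_of_nonneg_right hM1r (Nat.cast_nonneg _)
  have hHA : HT r (LT s q t) M1 q ≤ AW r (LT s q t) q := by
    unfold HT AW
    exact Finset.sum_le_sum_of_subset_of_nonneg (Finset.filter_subset _ _)
      (fun _ _ _ => Nat.zero_le _)
  have hHA' : (HT r (LT s q t) M1 q : ℝ) ≤ (AW r (LT s q t) q : ℝ) := by exact_mod_cast hHA
  refine ⟨?_, ?_⟩
  · rw [mul_assoc]
    exact h2.trans hHA'
  -- (c)
  have h3 : (M1 : ℝ) ^ (q - 1) * ((∑ Q : Fin (q + 1) → A, (Ft r (LT s q t) Q).card : ℕ) : ℝ) ≤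
      (K : ℝ) ^ (2 * q + 2) / η * (HT r (LT s q t) M1 q : ℝ) := by
    have e1 : ((∑ Q : Fin (q + 1) → A, (Ft r (LT s q t) Q).card : ℕ) : ℝ) ≤
        (K : ℝ) ^ (2 * q + 2) * S := by
      have := sum_ft hDC hr (LT s q t) q
      have e2 : ((∑ Q : Fin (q + 1) → A, (Ft r (LT s q t) Q).card : ℕ) : ℝ) ≤
          a * ((K : ℝ) * D) ^ (2 * q + 2) := by
        rw [ha]
        exact_mod_cast this
      refine e2.trans (le_of_eq ?_)
      rw [hS, mul_pow]
      ring
    have e3 : S ≤ (HW r (LT s q t) M1 q : ℝ) / η := by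
      rw [le_div_iff₀ hη]
      linarith
    calc (M1 : ℝ) ^ (q - 1) * ((∑ Q : Fin (q + 1) → A, (Ft r (LT s q t) Q).card : ℕ) : ℝ)
        ≤ (M1 : ℝ) ^ (q - 1) * ((K : ℝ) ^ (2 * q + 2) * S) :=
          mul_le_mul_of_nonneg_left e1 (by positivity)
      _ ≤ (M1 : ℝ) ^ (q - 1) * ((K : ℝ) ^ (2 * q + 2) * ((HW r (LT s q t) M1 q : ℝ) / η)) := by
          apply mul_le_mul_of_nonneg_left _ (by positivity)
          exact mul_le_mul_of_nonneg_left e3 (by positivity)
      _ = (K : ℝ) ^ (2 * q + 2) / η * ((M1 : ℝ) ^ (q - 1) * (HW r (LT s q t) M1 q : ℝ)) := by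
          ring
      _ ≤ _ := mul_le_mul_of_nonneg_left h1 (by positivity)
  -- (d)
  have h4 := nonnice hDC s q t N0 hN0 r hBl
  have h5 : a ^ q * (N0 : ℝ) ^ (q + 1) ≤ S := by
    obtain ⟨j, hj⟩ : ∃ j, q = j + 1 := ⟨q - 1, by omega⟩
    have e1 : (N0 : ℝ) ^ (q + 1) ≤ max (max 1 ((N0 : ℝ) ^ (q + 1))) (4 * c2 / η) :=
      (le_max_right _ _).trans (le_max_left _ _)
    have e2 : a ^ q = a ^ (q - 1) * a := by
      rw [hj, Nat.add_sub_cancel, pow_succ]
    calc a ^ q * (N0 : ℝ) ^ (q + 1)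
        ≤ a ^ q * max (max 1 ((N0 : ℝ) ^ (q + 1))) (4 * c2 / η) :=
          mul_le_mul_of_nonneg_left e1 (by positivity)
      _ = (max (max 1 ((N0 : ℝ) ^ (q + 1))) (4 * c2 / η) * a ^ (q - 1)) * a := by
          rw [e2]
          ring
      _ ≤ (D : ℝ) ^ (2 * q + 2) * a := mul_le_mul_of_nonneg_right hCA ha0
      _ = S := by rw [hS]; ring
  have h6 : (AW r (LT s q t) q : ℝ) ≤ (HT r (LT s q t) M1 q : ℝ) +
      (M1 : ℝ) ^ (q - 1) * ((∑ Q : Fin (q + 1) → A, (Ft r (LT s q t) Q).card : ℕ) : ℝ) +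
      ((∑ Q ∈ Finset.univ.filter (fun Q : Fin (q + 1) → A => ¬ Nice r (LT s q t) Q),
        (Ft r (LT s q t) Q).card ^ q : ℕ) : ℝ) := by
    exact_mod_cast AW_le r (LT s q t) M1 q (by omega)
  have h7 : S ≤ (HT r (LT s q t) M1 q : ℝ) / η := by
    rw [le_div_iff₀ hη]
    linarith
  -- (e)
  have h8 : (AW r (LT s q t) q : ℝ) ≤ Λ1 * (HT r (LT s q t) M1 q : ℝ) := by
    have e1 : Λ1 * (HT r (LT s q t) M1 q : ℝ) = 2 * ((HT r (LT s q t) M1 q : ℝ) +
        (K : ℝ) ^ (2 * q + 2) / η * (HT r (LT s q t) M1 q : ℝ) +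
        (HT r (LT s q t) M1 q : ℝ) / η) := by
      rw [hΛ1]
      ring
    rw [e1]
    linarith
  -- (f)
  have h9 : (PT r (LT s q t) M1 M2 q : ℝ) ≤ (HT r (LT s q t) M1 q : ℝ) / 2 := by
    have e1 := PT_le s q t M2 N0' M1 hDICH hN0' r hBl hM12 hM11
    have e2 := hTB A B r (LT s q t) q q K D lam hq hlam0 hr hD0'
    have e3 : AW r (LT s q t) q = ∑ w : Fin q → A, (Ft r (LT s q t) w).card ^ (q + 1) :=
      dc_univ hDC r (LT s q t) (q + 1) q
    rw [← e3] at e2
    set T : ℕ := ∑ w ∈ Finset.univ.filter (fun w : Fin q → A => Nice r (LT s q t) w),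
      ∑ y ∈ Finset.univ.filter (fun y : B => ∀ i, r (w i) y),
        ((Ft r (LT s q t) w).filter (fun u => r u y)).card * (Ft r (LT s q t) w).card ^ q with hT
    have e4 : (PT r (LT s q t) M1 M2 q : ℝ) ≤ 2 * (Δ : ℝ) ^ q * ((q + 1) * (T : ℝ)) := by
      exact_mod_cast e1
    have e5 : (Fintype.card B : ℝ) ≤ K * a := by
      rw [ha]
      exact_mod_cast card_B hr hD0'
    have e6 : (Fintype.card B : ℝ) * ((K : ℝ) * D) ^ (q + 1) * (lam * D) ^ q ≤
        (K : ℝ) ^ (q + 2) * lam ^ q * (a * (D : ℝ) ^ (2 * q + 1)) := by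
      calc (Fintype.card B : ℝ) * ((K : ℝ) * D) ^ (q + 1) * (lam * D) ^ q
          ≤ (K * a) * ((K : ℝ) * D) ^ (q + 1) * (lam * D) ^ q := by
            apply mul_le_mul_of_nonneg_right _ (by positivity)
            exact mul_le_mul_of_nonneg_right e5 (by positivity)
        _ = _ := by
            rw [mul_pow, mul_pow]
            ring
    have e7 : c2 ≤ η * D / 4 := by
      rw [div_le_iff₀ hη] at hDc2
      linarith
    have e8 : 2 * (Δ : ℝ) ^ q * ((q + 1) * ((Fintype.card B : ℝ) * ((K : ℝ) * D) ^ (q + 1) *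
        (lam * D) ^ q)) ≤ (HT r (LT s q t) M1 q : ℝ) / 4 := by
      calc 2 * (Δ : ℝ) ^ q * ((q + 1) * ((Fintype.card B : ℝ) * ((K : ℝ) * D) ^ (q + 1) *
            (lam * D) ^ q))
          ≤ 2 * (Δ : ℝ) ^ q * ((q + 1) * ((K : ℝ) ^ (q + 2) * lam ^ q *
            (a * (D : ℝ) ^ (2 * q + 1)))) := by
            apply mul_le_mul_of_nonneg_left _ (by positivity)
            exact mul_le_mul_of_nonneg_left e6 (by positivity)
        _ = c2 * (a * (D : ℝ) ^ (2 * q + 1)) := by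
            rw [hc2]
            ring
        _ ≤ (η * D / 4) * (a * (D : ℝ) ^ (2 * q + 1)) :=
            mul_le_mul_of_nonneg_right e7 (by positivity)
        _ = η * S / 4 := by
            rw [hS]
            ring
        _ ≤ _ := by linarith
    have e9 : 2 * (Δ : ℝ) ^ q * ((q + 1) * ((LT s q t : ℝ) * K / lam *
        (AW r (LT s q t) q : ℝ))) ≤ (HT r (LT s q t) M1 q : ℝ) / 4 := by
      calc 2 * (Δ : ℝ) ^ q * ((q + 1) * ((LT s q t : ℝ) * K / lam * (AW r (LT s q t) q : ℝ)))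
          ≤ 2 * (Δ : ℝ) ^ q * ((q + 1) * ((LT s q t : ℝ) * K / lam *
            (Λ1 * (HT r (LT s q t) M1 q : ℝ)))) := by
            apply mul_le_mul_of_nonneg_left _ (by positivity)
            apply mul_le_mul_of_nonneg_left _ (by positivity)
            exact mul_le_mul_of_nonneg_left h8 (by positivity)
        _ = (HT r (LT s q t) M1 q : ℝ) / 4 := by
            rw [hlam]
            field_simp
            ring
    calc (PT r (LT s q t) M1 M2 q : ℝ) ≤ 2 * (Δ : ℝ) ^ q * ((q + 1) * (T : ℝ)) := e4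
      _ ≤ 2 * (Δ : ℝ) ^ q * ((q + 1) * ((LT s q t : ℝ) * K / lam * (AW r (LT s q t) q : ℝ) +
          (Fintype.card B : ℝ) * ((K : ℝ) * D) ^ (q + 1) * (lam * D) ^ q)) := by
          apply mul_le_mul_of_nonneg_left _ (by positivity)
          exact mul_le_mul_of_nonneg_left e2 (by positivity)
      _ = 2 * (Δ : ℝ) ^ q * ((q + 1) * ((LT s q t : ℝ) * K / lam * (AW r (LT s q t) q : ℝ))) +
          2 * (Δ : ℝ) ^ q * ((q + 1) * ((Fintype.card B : ℝ) * ((K : ℝ) * D) ^ (q + 1) *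
            (lam * D) ^ q)) := by ring
      _ ≤ (HT r (LT s q t) M1 q : ℝ) / 4 + (HT r (LT s q t) M1 q : ℝ) / 4 := add_le_add e9 e8
      _ = _ := by ring
  -- (g)
  have h10 : (HT r (LT s q t) M1 q : ℝ) = (RW r (LT s q t) M1 M2 q : ℝ) +
      (PT r (LT s q t) M1 M2 q : ℝ) := by
    exact_mod_cast HT_split r (LT s q t) M1 M2 q
  have h11 : (HT r (LT s q t) M1 q : ℝ) ≤ 2 * (RW r (LT s q t) M1 M2 q : ℝ) := by linarith
  calc (AW r (LT s q t) q : ℝ) ≤ Λ1 * (HT r (LT s q t) M1 q : ℝ) := h8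
    _ ≤ Λ1 * (2 * (RW r (LT s q t) M1 M2 q : ℝ)) := mul_le_mul_of_nonneg_left h11 hΛ10.le
    _ = 2 * Λ1 * (RW r (LT s q t) M1 M2 q : ℝ) := by ring

end Pool.Agent.W803.TE3
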