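import Pool.Agent.W257.CStm2

/-!
ESG-D2: the irreducible factor of the resolvent vanishing on a branch at infinity (S_factor).
-/

set_option autoImplicit false

open Polynomial Finset

namespace Pool.Agent.W803.ESGFactor

open Pool.Agent.H322R2 Pool.Agent.W257

lemma comp_evf {S T : Type*} [CommRing S] [CommRing T] (φ : S →+* T) (x : S) :
    φ.comp (evf x) = evf (φ x) := by
  apply Polynomial.ringHom_ext'
  · exact RingHom.ext_int _ _
  · simp

/-- a monic prime factor vanishing at a point -/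
lemma exists_monic_prime {K : Type*} [Field K] (x y : K) {F : ℤ[X][X]} (hF : F.Monic)
    (h0 : ev x y F = 0) :
    ∃ F₁ : ℤ[X][X], F₁.Monic ∧ Prime F₁ ∧ F₁ ∣ F ∧ ev x y F₁ = 0 := by
  obtain ⟨s, hs, hass⟩ := UniqueFactorizationMonoid.exists_prime_factors F hF.ne_zero
  have h1 : ev x y s.prod = 0 := by
    obtain ⟨u, hu⟩ := hass.symm
    rw [← hu, map_mul, h0, zero_mul]
  rw [map_multiset_prod, Multiset.prod_eq_zero_iff, Multiset.mem_map] at h1
  obtain ⟨P, hPs, hP0⟩ := h1
  have hPF : P ∣ F := (Multiset.dvd_prod hPs).trans hass.dvd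
  have hlc : P.leadingCoeff ∣ 1 := by
    have := Polynomial.leadingCoeff_dvd_leadingCoeff hPF
    rwa [hF.leadingCoeff] at this
  obtain ⟨u, hu⟩ := hlc
  have hunit : IsUnit (C u : ℤ[X][X]) := by
    rw [Polynomial.isUnit_C]
    exact IsUnit.of_mul_eq_one P.leadingCoeff (by rw [mul_comm]; exact hu.symm)
  have hass2 : Associated P (C u * P) := by
    obtain ⟨v, hv⟩ := hunit
    exact ⟨v, by rw [hv, mul_comm]⟩
  refine ⟨C u * P, ?_, ?_, ?_, ?_⟩
  · apply Polynomial.monic_C_mul_of_mul_leadingCoeff_eq_one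
    rw [mul_comm]; exact hu.symm
  · exact hass2.prime (hs P hPs)
  · exact hass2.symm.dvd.trans hPF
  · rw [map_mul, hP0, mul_zero]

theorem main : S_factor := by
  intro m g f F β δ ω hfm hfd hTD hg hδ hω hres hTD1
  set K := FractionRing (PowerSeries ℝ) with hK
  set ι : PowerSeries ℝ →+* K := algebraMap (PowerSeries ℝ) K with hι
  have hιinj : Function.Injective ι := IsFractionRing.injective (PowerSeries ℝ) K
  set ζ₀ : PowerSeries ℝ := PowerSeries.C ((δ : ℝ) ^ 2) * PowerSeries.X with hζ₀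
  have hζ₀0 : ζ₀ ≠ 0 := by
    apply mul_ne_zero
    · intro h
      have h1 : ((δ : ℝ) ^ 2) = 0 := by
        apply PowerSeries.C_injective
        rw [h, map_zero]
      exact hδ (by exact_mod_cast pow_eq_zero_iff (two_ne_zero) |>.mp h1)
    · exact PowerSeries.X_ne_zero
  have hζ0 : ι ζ₀ ≠ 0 := fun h => hζ₀0 (hιinj (by rw [h, map_zero]))
  set x : K := (ι ζ₀)⁻¹ with hx
  have hx0 : x ≠ 0 := inv_ne_zero hζ0
  have hxz : x * ι ζ₀ = 1 := inv_mul_cancel₀ hζ0
  set θ : PowerSeries ℤ →+* K := ι.comp (PowerSeries.map (Int.castRingHom ℝ)) with hθ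
  have hθζ : θ (PowerSeries.C (δ ^ 2) * PowerSeries.X) = ι ζ₀ := by
    rw [hθ, RingHom.comp_apply, map_mul, PowerSeries.map_C, PowerSeries.map_X]
    simp [hζ₀]
  have h1 : (hmg m f).map (evf (ι ζ₀)) = ∏ i, (X - C (θ (ω i))) := by
    have := congrArg (Polynomial.map θ) hω
    rw [Polynomial.map_map, comp_evf, hθζ, Polynomial.map_prod] at this
    rw [this]
    apply Finset.prod_congr rfl
    intro i _
    simp
  have h2 := split_of_hmg hTD hxz (fun i => θ (ω i)) h1
  have h3 : g.map (Int.castRingHom K) = ∏ i, (X - C (ι (PowerSeries.C (β i)))) := by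
    have := congrArg (Polynomial.map (ι.comp (PowerSeries.C (R := ℝ)))) hg
    rw [Polynomial.map_map, Polynomial.map_prod] at this
    rw [show Int.castRingHom K = (ι.comp (PowerSeries.C (R := ℝ))).comp (Int.castRingHom ℝ) from
      RingHom.ext_int _ _, this]
    apply Finset.prod_congr rfl
    intro i _
    simp
  have h4 := hres.2.2 K x _ _ h3 h2
  set w : PowerSeries ℝ := ∑ i, PowerSeries.C (β i) * PowerSeries.map (Int.castRingHom ℝ) (ω i)
    with hw
  have h5 : ∑ i, ι (PowerSeries.C (β i)) * (x * θ (ω ((1 : Equiv.Perm (Fin m)) i))) = x * ι w := by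
    rw [hw, map_sum, Finset.mul_sum]
    apply Finset.sum_congr rfl
    intro i _
    rw [map_mul, hθ, RingHom.comp_apply, Equiv.Perm.one_apply]
    ring
  have h6 : ev x (x * ι w) F = 0 := by
    rw [ev_apply, ← eval_map, h4, eval_prod]
    apply Finset.prod_eq_zero (Finset.mem_univ (1 : Equiv.Perm (Fin m)))
    rw [eval_sub, eval_X, eval_C, ← h5, sub_self]
  obtain ⟨F₁, a1, a2, a3, a4⟩ := exists_monic_prime x (x * ι w) hres.1 h6
  refine ⟨F₁, a1, a2, a3, ?_⟩
  have h7 := ev_hmg (ι w) hxz (hTD1 F₁ a1 a3)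
  rw [a4] at h7
  have h8 : ev (ι ζ₀) (ι w) (hmg F₁.natDegree F₁) = 0 := by
    rcases mul_eq_zero.mp h7.symm with h | h
    · exact absurd h (pow_ne_zero _ hx0)
    · exact h
  apply hιinj
  rw [map_ev, h8, map_zero]

end Pool.Agent.W803.ESGFactor
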