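import Mathlib
import Pool.Agent.W792.GK.Stm

set_option autoImplicit false

/-!
# GK-SY2: Fourier coefficients of symmetric functions on the torus are spread out
-/

namespace Pool.Agent.W803.GKSy2

open MeasureTheory UnitAddTorus
open Pool.Agent.W792.GK

noncomputable section

/-- normalised measure on the circle -/
local instance : MeasureSpace UnitAddCircle := ⟨AddCircle.haarAddCircle⟩

/-- it is a Haar measure -/
local instance : Measure.IsAddHaarMeasure (volume : Measure UnitAddCircle) :=
  inferInstanceAs (Measure.IsAddHaarMeasure AddCircle.haarAddCircle)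

/-- it is a probability measure -/
local instance : IsProbabilityMeasure (volume : Measure UnitAddCircle) :=
  inferInstanceAs (IsProbabilityMeasure AddCircle.haarAddCircle)

variable {ι : Type} [Fintype ι]

theorem coeff_eq (F : UnitAddTorus ι → ℂ) (n : ι → ℤ) :
    mFourierCoeff F n = ∫ t : UnitAddTorus ι, mFourier (-n) t * F t := rfl

/-- Bessel -/
theorem bessel (f : C(UnitAddTorus ι, ℝ)) (S : Finset (ι → ℤ)) :
    ∑ n ∈ S, ‖hop f n‖ ^ 2 ≤ ‖f‖ ^ 2 := by
  let fc : C(UnitAddTorus ι, ℂ) := ⟨fun k => (f k : ℂ), by fun_prop⟩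
  have h := hasSum_sq_mFourierCoeff (ContinuousMap.toLp 2 volume ℂ fc)
  simp_rw [mFourierCoeff_toLp] at h
  have h1 : ∑ n ∈ S, ‖mFourierCoeff fc n‖ ^ 2 ≤ ∫ t, ‖(ContinuousMap.toLp 2 volume ℂ fc) t‖ ^ 2 :=
    sum_le_hasSum S (fun i _ => by positivity) h
  refine (show ∑ n ∈ S, ‖hop f n‖ ^ 2 = ∑ n ∈ S, ‖mFourierCoeff fc n‖ ^ 2 from rfl).trans_le (h1.trans ?_)
  have h2 : ∫ t, ‖(ContinuousMap.toLp 2 volume ℂ fc) t‖ ^ 2 = ∫ t, ‖fc t‖ ^ 2 := by
    refine integral_congr_ae ?_
    filter_upwards [ContinuousMap.coeFn_toLp (p := 2) (𝕜 := ℂ) volume fc] with t ht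
    rw [ht]
  rw [h2]
  calc ∫ t, ‖fc t‖ ^ 2 ≤ ∫ _ : UnitAddTorus ι, ‖f‖ ^ 2 := by
        refine integral_mono_of_nonneg (Filter.Eventually.of_forall fun t => by positivity)
          (integrable_const _) (Filter.Eventually.of_forall fun t => ?_)
        show ‖fc t‖ ^ 2 ≤ ‖f‖ ^ 2
        have : ‖fc t‖ = ‖f t‖ := by
          show ‖(f t : ℂ)‖ = ‖f t‖
          rw [Complex.norm_real]
        rw [this]
        exact pow_le_pow_left₀ (norm_nonneg _) (f.norm_coe_le_norm t) 2
    _ = ‖f‖ ^ 2 := by simp

theorem mp_perm (σ : Equiv.Perm ι) :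
    MeasurePreserving (fun (k : UnitAddTorus ι) (i : ι) => k (σ i)) volume volume := by
  have h := volume_measurePreserving_piCongrLeft (fun _ : ι => UnitAddCircle) σ.symm
  have e : (⇑(MeasurableEquiv.piCongrLeft (fun _ : ι => UnitAddCircle) σ.symm)) =
      (fun (k : UnitAddTorus ι) (i : ι) => k (σ i)) := by
    funext k i
    have h2 := Equiv.piCongrLeft_apply_apply (P := fun _ : ι => UnitAddCircle) σ.symm k (σ i)
    rw [MeasurableEquiv.coe_piCongrLeft]
    simpa using h2
  rw [e] at h
  exact h

theorem mp_neg (i : ι) [DecidableEq ι] :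
    MeasurePreserving (fun (k : UnitAddTorus ι) => Function.update k i (-(k i))) volume volume := by
  have h := measurePreserving_pi (ι := ι) (α := fun _ => UnitAddCircle) (β := fun _ => UnitAddCircle)
    (fun _ => volume) (fun _ => volume)
    (f := fun j => if j = i then (fun x => -x) else (fun x => x)) (by
      intro j
      by_cases hj : j = i
      · simp only [hj, if_true]
        exact Measure.measurePreserving_neg (volume : Measure UnitAddCircle)
      · simp only [hj, if_false]
        exact MeasurePreserving.id _)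
  have e : (fun (a : UnitAddTorus ι) (j : ι) => (if j = i then (fun x => -x) else (fun x => x) :
      UnitAddCircle → UnitAddCircle) (a j)) =
      (fun (k : UnitAddTorus ι) => Function.update k i (-(k i))) := by
    funext k j
    by_cases hj : j = i
    · subst hj; simp
    · simp [hj]
  rw [← e]
  exact h

theorem change (Φ : UnitAddTorus ι → UnitAddTorus ι) (hΦ : MeasurePreserving Φ volume volume)
    (g : UnitAddTorus ι → ℂ) (hg : Continuous g) : ∫ t, g (Φ t) = ∫ t, g t := by
  conv_rhs => rw [← hΦ.map_eq]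
  rw [integral_map hΦ.measurable.aemeasurable hg.aestronglyMeasurable]

theorem hop_perm (f : C(UnitAddTorus ι, ℝ)) (σ : Equiv.Perm ι)
    (hf : ∀ k : UnitAddTorus ι, f (fun i => k (σ i)) = f k) (γ : ι → ℤ) :
    hop f (fun i => γ (σ i)) = hop f γ := by
  unfold hop
  rw [coeff_eq, coeff_eq]
  rw [← change _ (mp_perm σ) (fun t => mFourier (-(fun i => γ (σ i))) t * (f t : ℂ)) (by fun_prop)]
  refine integral_congr_ae (Filter.Eventually.of_forall fun k => ?_)
  simp only
  rw [hf]
  congr 1
  simp only [mFourier, ContinuousMap.coe_mk, Pi.neg_apply]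
  exact Equiv.prod_comp σ (fun i => fourier (-γ i) (k i))

theorem hop_neg [DecidableEq ι] (f : C(UnitAddTorus ι, ℝ)) (i : ι)
    (hf : ∀ k : UnitAddTorus ι, f (Function.update k i (-(k i))) = f k) (γ : ι → ℤ) :
    hop f (Function.update γ i (-(γ i))) = hop f γ := by
  unfold hop
  rw [coeff_eq, coeff_eq]
  rw [← change _ (mp_neg i) (fun t => mFourier (-(Function.update γ i (-(γ i)))) t * (f t : ℂ)) (by fun_prop)]
  refine integral_congr_ae (Filter.Eventually.of_forall fun k => ?_)
  simp only
  rw [hf]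
  congr 1
  simp only [mFourier, ContinuousMap.coe_mk, Pi.neg_apply]
  refine Finset.prod_congr rfl fun j _ => ?_
  by_cases hj : j = i
  · subst hj
    simp [fourier_apply]
  · simp [hj]

theorem count_bound (f : C(UnitAddTorus ι, ℝ)) (γ : ι → ℤ) (S : Finset ι) (e : ι → (ι → ℤ))
    (hinj : Set.InjOn e S) (he : ∀ i ∈ S, hop f (e i) = hop f γ) (hS : Fintype.card ι ≤ 2 * S.card) :
    ‖hop f γ‖ ^ 2 * (Fintype.card ι : ℝ) ≤ 2 * ‖f‖ ^ 2 := by
  classical
  have h1 := bessel f (S.image e)
  rw [Finset.sum_image hinj] at h1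
  rw [Finset.sum_congr rfl (fun i hi => by rw [he i hi] : ∀ i ∈ S, ‖hop f (e i)‖ ^ 2 = ‖hop f γ‖ ^ 2)] at h1
  rw [Finset.sum_const, nsmul_eq_mul] at h1
  have h2 : (Fintype.card ι : ℝ) ≤ 2 * S.card := by exact_mod_cast hS
  nlinarith [sq_nonneg ‖hop f γ‖]

theorem main : S_SY2 := by
  intro ι _ _ f hf γ hγ
  obtain ⟨i1, hi1⟩ : ∃ i, γ i ≠ 0 := by
    by_contra h
    push Not at h
    exact hγ (funext h)
  have hcard : (Finset.univ.filter (fun i => γ i ≠ 0)).card + (Finset.univ.filter (fun i => γ i = 0)).card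
      = Fintype.card ι := by
    have := Finset.card_filter_add_card_filter_not (s := (Finset.univ : Finset ι)) (fun i => γ i = 0)
    rw [Finset.card_univ] at this
    simp only [ne_eq]
    omega
  by_cases hc : Fintype.card ι ≤ 2 * (Finset.univ.filter (fun i => γ i ≠ 0)).card
  · refine count_bound f γ _ (fun i => Function.update γ i (-(γ i))) ?_ ?_ hc
    · intro i hi j hj hij
      simp only [Finset.coe_filter, Finset.mem_univ, true_and, Set.mem_ofPred_eq] at hi hj
      by_contra hne
      have h1 := congrFun hij i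
      simp only [Function.update_self] at h1
      rw [Function.update_of_ne hne] at h1
      omega
    · intro i _
      exact hop_neg f i (hf.2 i) γ
  · refine count_bound f γ (Finset.univ.filter (fun i => γ i = 0))
      (fun i' => fun i => γ (Equiv.swap i1 i' i)) ?_ ?_ (by omega)
    · intro i hi j hj hij
      simp only [Finset.coe_filter, Finset.mem_univ, true_and, Set.mem_ofPred_eq] at hi hj
      by_contra hne
      have h1 := congrFun hij i
      simp only [Equiv.swap_apply_right] at h1
      have h3 : i ≠ i1 := by rintro rfl; exact hi1 hi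
      rw [Equiv.swap_apply_of_ne_of_ne h3 hne] at h1
      omega
    · intro i _
      exact hop_perm f (Equiv.swap i1 i) (hf.1 _) γ

end

end Pool.Agent.W803.GKSy2
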