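import Mathlib

/-!
A quasiconformal map of the plane, locally Hölder continuous with exponent `3/4`, which is not
in `W^{1,7}_loc` (proof by helper46).
-/

set_option autoImplicit false

open MeasureTheory Filter Topology Metric

namespace Pool.Agent.W803.QC

abbrev E := EuclideanSpace ℝ (Fin 2)

/-- the clamp -/
noncomputable def m (q s : ℝ) : ℝ := max (q ^ 2) (min (s / q ^ 2) 1)

/-- the radial factor -/
noncomputable def g (q s : ℝ) : ℝ := 1 / Real.sqrt (m q s)

lemma m_pos {q : ℝ} (hq : 0 < q) (s : ℝ) : 0 < m q s :=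
  lt_of_lt_of_le (by positivity) (le_max_left _ _)

lemma m_ge {q : ℝ} (s : ℝ) : q ^ 2 ≤ m q s := le_max_left _ _

lemma m_le_one {q : ℝ} (hq : 0 < q) (hq1 : q ≤ 1) (s : ℝ) : m q s ≤ 1 :=
  max_le (by nlinarith) (min_le_right _ _)

lemma m_mono {q : ℝ} (hq : 0 < q) {s t : ℝ} (h : s ≤ t) : m q s ≤ m q t := by
  unfold m
  apply max_le_max le_rfl
  apply min_le_min _ le_rfl
  gcongr

lemma g_pos {q : ℝ} (hq : 0 < q) (s : ℝ) : 0 < g q s := by
  unfold g
  have := Real.sqrt_pos.mpr (m_pos hq s)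
  positivity

lemma g_anti {q : ℝ} (hq : 0 < q) {s t : ℝ} (h : s ≤ t) : g q t ≤ g q s := by
  unfold g
  have h1 := Real.sqrt_pos.mpr (m_pos hq s)
  have h2 := Real.sqrt_le_sqrt (m_mono hq h)
  gcongr

lemma key {q : ℝ} (hq : 0 < q) {t M : ℝ} (h : t ≤ M) :
    t * (g q t - g q M) ≤ 1 / 2 * g q M * (M - t) := by
  have hq2 : 0 < q ^ 2 := by positivity
  rcases eq_or_lt_of_le (m_mono hq h) with hab | hab
  · unfold g
    rw [hab, sub_self, mul_zero]
    have := Real.sqrt_pos.mpr (m_pos hq M)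
    have : 0 ≤ M - t := by linarith
    positivity
  · have h1 : t ≤ q ^ 2 * m q t := by
      have h2 : min (t / q ^ 2) 1 ≤ m q t := le_max_right _ _
      rcases le_total (t / q ^ 2) 1 with h3 | h3
      · rw [min_eq_left h3] at h2
        rw [div_le_iff₀ hq2] at h2
        linarith
      · exfalso
        rw [min_eq_right h3] at h2
        have h4 : m q M ≤ m q t := by
          have : (1 : ℝ) ≤ M / q ^ 2 := h3.trans (by gcongr)
          unfold m at h2 ⊢
          rw [min_eq_right this]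
          exact max_le (le_max_left _ _) h2
        linarith
    have h2 : q ^ 2 * m q M ≤ M := by
      have h3 : m q M ≤ M / q ^ 2 := by
        have h4 : q ^ 2 < m q M := lt_of_le_of_lt (m_ge t) hab
        unfold m at h4 ⊢
        rcases lt_max_iff.mp h4 with h5 | h5
        · exact absurd h5 (lt_irrefl _)
        · rw [max_eq_right h5.le]
          exact min_le_left _ _
      rw [le_div_iff₀ hq2] at h3
      linarith
    obtain ⟨α, hα⟩ : ∃ α, α = Real.sqrt (m q t) := ⟨_, rfl⟩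
    obtain ⟨β, hβ⟩ : ∃ β, β = Real.sqrt (m q M) := ⟨_, rfl⟩
    have hα0 : 0 < α := by rw [hα]; exact Real.sqrt_pos.mpr (m_pos hq t)
    have hβ0 : 0 < β := by rw [hβ]; exact Real.sqrt_pos.mpr (m_pos hq M)
    have hα2 : m q t = α ^ 2 := by rw [hα, Real.sq_sqrt (m_pos hq t).le]
    have hβ2 : m q M = β ^ 2 := by rw [hβ, Real.sq_sqrt (m_pos hq M).le]
    have hαβ : α < β := by
      rw [hα2, hβ2] at hab
      exact lt_of_pow_lt_pow_left₀ 2 hβ0.le hab
    rw [hα2] at h1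
    rw [hβ2] at h2
    unfold g
    rw [← hα, ← hβ]
    have h3 : t * (2 * β - α) ≤ α * M := by
      calc t * (2 * β - α) ≤ (q ^ 2 * α ^ 2) * (2 * β - α) := by
            apply mul_le_mul_of_nonneg_right h1; linarith
        _ = q ^ 2 * α * (α * (2 * β - α)) := by ring
        _ ≤ q ^ 2 * α * β ^ 2 := by
            apply mul_le_mul_of_nonneg_left _ (by positivity)
            nlinarith [sq_nonneg (β - α)]
        _ = α * (q ^ 2 * β ^ 2) := by ring
        _ ≤ α * M := by gcongr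
    have h4 : t * (1 / α - 1 / β) = t * (β - α) / (α * β) := by field_simp
    have h5 : 1 / 2 * (1 / β) * (M - t) = (1 / 2 * α * (M - t)) / (α * β) := by field_simp
    rw [h4, h5]
    apply div_le_div_of_nonneg_right _ (by positivity)
    nlinarith

/-- the radial map centred at the origin -/
noncomputable def S (q : ℝ) (u : E) : E := g q ‖u‖ • u

lemma S_est {q : ℝ} (hq : 0 < q) {u v : E} (h : ‖v‖ ≤ ‖u‖) :
    1 / 2 * g q ‖u‖ * ‖u - v‖ ≤ ‖S q u - S q v‖ ∧
      ‖S q u - S q v‖ ≤ 3 / 2 * g q ‖u‖ * ‖u - v‖ := by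
  have h1 := key hq h
  have h2 : ‖u‖ - ‖v‖ ≤ ‖u - v‖ := norm_sub_norm_le u v
  have hg := g_pos hq ‖u‖
  have hgt := g_anti hq h
  have h3 : S q u - S q v = g q ‖u‖ • (u - v) - (g q ‖v‖ - g q ‖u‖) • v := by
    unfold S
    rw [smul_sub, sub_smul]; abel
  have h4 : ‖(g q ‖v‖ - g q ‖u‖) • v‖ ≤ 1 / 2 * g q ‖u‖ * ‖u - v‖ := by
    rw [norm_smul, Real.norm_eq_abs, abs_of_nonneg (by linarith)]
    calc (g q ‖v‖ - g q ‖u‖) * ‖v‖ = ‖v‖ * (g q ‖v‖ - g q ‖u‖) := mul_comm _ _
      _ ≤ 1 / 2 * g q ‖u‖ * (‖u‖ - ‖v‖) := h1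
      _ ≤ _ := by gcongr
  have h5 : ‖g q ‖u‖ • (u - v)‖ = g q ‖u‖ * ‖u - v‖ := by
    rw [norm_smul, Real.norm_eq_abs, abs_of_pos hg]
  rw [h3]
  constructor
  · have := norm_sub_norm_le (g q ‖u‖ • (u - v)) ((g q ‖v‖ - g q ‖u‖) • v)
    rw [h5] at this
    nlinarith
  · have := norm_sub_le (g q ‖u‖ • (u - v)) ((g q ‖v‖ - g q ‖u‖) • v)
    rw [h5] at this
    nlinarith

/-- the symmetric version of the estimate -/
lemma S_est' {q : ℝ} (hq : 0 < q) (u v : E) :
    1 / 2 * g q (max ‖u‖ ‖v‖) * ‖u - v‖ ≤ ‖S q u - S q v‖ ∧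
      ‖S q u - S q v‖ ≤ 3 / 2 * g q (max ‖u‖ ‖v‖) * ‖u - v‖ := by
  rcases le_total ‖v‖ ‖u‖ with h | h
  · rw [max_eq_left h]; exact S_est hq h
  · rw [max_eq_right h, norm_sub_rev u v, norm_sub_rev (S q u)]; exact S_est hq h

lemma g_one {q : ℝ} (hq : 0 < q) (hq1 : q ≤ 1) {s : ℝ} (h : q ^ 2 ≤ s) : g q s = 1 := by
  have hq2 : 0 < q ^ 2 := by positivity
  have h1 : (1 : ℝ) ≤ s / q ^ 2 := by rw [le_div_iff₀ hq2]; linarith
  unfold g m
  rw [min_eq_right h1, max_eq_right (by nlinarith)]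
  simp

lemma g_inner {q : ℝ} (hq : 0 < q) {s : ℝ} (h : s ≤ q ^ 4) : g q s = 1 / q := by
  have hq2 : 0 < q ^ 2 := by positivity
  have h1 : s / q ^ 2 ≤ q ^ 2 := by
    rw [div_le_iff₀ hq2]; calc s ≤ q ^ 4 := h
      _ = _ := by ring
  unfold g m
  rw [max_eq_left ((min_le_left _ _).trans h1), Real.sqrt_sq hq.le]

lemma S_out {q : ℝ} (hq : 0 < q) (hq1 : q ≤ 1) {u : E} (h : q ^ 2 ≤ ‖u‖) : S q u = u := by
  unfold S
  rw [g_one hq hq1 h, one_smul]

lemma S_in {q : ℝ} (hq : 0 < q) (hq1 : q < 1) {u : E} (h : ‖u‖ < q ^ 2) : ‖S q u‖ < q ^ 2 := by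
  have hq2 : 0 < q ^ 2 := by positivity
  unfold S
  rw [norm_smul, Real.norm_eq_abs, abs_of_pos (g_pos hq _)]
  have h1 : ‖u‖ / q ^ 2 < 1 := by rw [div_lt_one hq2]; exact h
  have h2 : m q ‖u‖ < 1 := by
    unfold m
    rw [max_lt_iff]
    refine ⟨by nlinarith, ?_⟩
    rw [min_eq_left h1.le]; exact h1
  have h3 : ‖u‖ ≤ q ^ 2 * m q ‖u‖ := by
    have h4 : ‖u‖ / q ^ 2 ≤ m q ‖u‖ := by
      unfold m
      rw [min_eq_left h1.le]; exact le_max_right _ _
    rw [div_le_iff₀ hq2] at h4; linarith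
  obtain ⟨α, hα⟩ : ∃ α, α = Real.sqrt (m q ‖u‖) := ⟨_, rfl⟩
  have hα0 : 0 < α := by rw [hα]; exact Real.sqrt_pos.mpr (m_pos hq _)
  have hα2 : m q ‖u‖ = α ^ 2 := by rw [hα, Real.sq_sqrt (m_pos hq _).le]
  unfold g
  rw [← hα]
  rw [hα2] at h2 h3
  have hα1 : α < 1 := by nlinarith
  calc 1 / α * ‖u‖ ≤ 1 / α * (q ^ 2 * α ^ 2) := by gcongr
    _ = q ^ 2 * α := by field_simp
    _ < q ^ 2 * 1 := by gcongr
    _ = _ := by ring

/-- centres and radii -/
noncomputable def qq (k : ℕ) : ℝ := 1 / (4 * ((k : ℝ) + 1))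

noncomputable def c (k : ℕ) : E := (1 / ((k : ℝ) + 1)) • EuclideanSpace.single 0 1

lemma qq_pos (k : ℕ) : 0 < qq k := by unfold qq; positivity

lemma qq_le (k : ℕ) : qq k ≤ 1 / 4 := by
  unfold qq
  apply one_div_le_one_div_of_le (by norm_num)
  have : (0 : ℝ) ≤ k := Nat.cast_nonneg k
  linarith

lemma dist_c (k l : ℕ) : dist (c k) (c l) = |1 / ((k : ℝ) + 1) - 1 / ((l : ℝ) + 1)| := by
  unfold c
  rw [dist_eq_norm, ← sub_smul, norm_smul, Real.norm_eq_abs]
  simp

lemma sep_aux {k l : ℕ} (h : k < l) : qq k ^ 2 + qq l ^ 2 ≤ dist (c k) (c l) := by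
  rw [dist_c]
  unfold qq
  have hk : (0 : ℝ) ≤ k := Nat.cast_nonneg k
  have hl : (k : ℝ) + 1 ≤ l := by exact_mod_cast h
  have e1 : 1 / ((k : ℝ) + 1) - 1 / ((l : ℝ) + 1) = ((l : ℝ) - k) / (((k : ℝ) + 1) * ((l : ℝ) + 1)) := by
    rw [div_sub_div _ _ (by positivity) (by positivity)]
    congr 1
    ring
  rw [e1, abs_of_nonneg (by apply div_nonneg; linarith; positivity)]
  have h1 : (1 / (4 * ((k : ℝ) + 1))) ^ 2 ≤ 1 / 2 * (1 / (((k : ℝ) + 1) * ((k : ℝ) + 2))) := by
    rw [div_pow, one_pow, ← mul_div_assoc, mul_one, div_le_div_iff₀ (by positivity) (by positivity)]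
    nlinarith
  have h2 : (1 / (4 * ((l : ℝ) + 1))) ^ 2 ≤ (1 / (4 * ((k : ℝ) + 1))) ^ 2 := by
    gcongr
  have h3 : 1 / (((k : ℝ) + 1) * ((k : ℝ) + 2)) ≤ ((l : ℝ) - k) / (((k : ℝ) + 1) * ((l : ℝ) + 1)) := by
    rw [div_le_div_iff₀ (by positivity) (by positivity)]
    have : 0 ≤ ((k : ℝ) + 1) * (((l : ℝ) - k) * ((k : ℝ) + 2) - ((l : ℝ) + 1)) := by
      apply mul_nonneg (by linarith)
      nlinarith
    nlinarith
  linarith

lemma sep {k l : ℕ} (h : k ≠ l) : qq k ^ 2 + qq l ^ 2 ≤ dist (c k) (c l) := by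
  rcases lt_or_gt_of_ne h with h | h
  · exact sep_aux h
  · rw [dist_comm, add_comm]; exact sep_aux h

/-- the balls -/
def B (k : ℕ) : Set E := ball (c k) (qq k ^ 2)

lemma B_disj {k l : ℕ} {x : E} (hk : x ∈ B k) (hl : x ∈ B l) : k = l := by
  by_contra h
  have h1 := sep h
  unfold B at hk hl
  rw [mem_ball] at hk hl
  have h2 := dist_triangle_left (c k) (c l) x
  linarith

/-- the maps `R_k` -/
noncomputable def R (k : ℕ) (x : E) : E := c k + S (qq k) (x - c k)

lemma R_sub (k : ℕ) (x y : E) : R k x - R k y = S (qq k) (x - c k) - S (qq k) (y - c k) := by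
  unfold R; abel

lemma R_out {k : ℕ} {x : E} (h : x ∉ B k) : R k x = x := by
  unfold B at h
  rw [mem_ball, not_lt, dist_eq_norm] at h
  unfold R
  rw [S_out (qq_pos k) ((qq_le k).trans (by norm_num)) h]
  abel

lemma R_in {k : ℕ} {x : E} (h : x ∈ B k) : R k x ∈ B k := by
  unfold B at h ⊢
  rw [mem_ball, dist_eq_norm] at h ⊢
  have : R k x - c k = S (qq k) (x - c k) := by unfold R; abel
  rw [this]
  exact S_in (qq_pos k) (lt_of_le_of_lt (qq_le k) (by norm_num)) h

/-- the estimate for one radial map when one of the points is outside the ball -/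
lemma R_est_out {k : ℕ} {x y : E} (h : y ∉ B k) :
    1 / 2 * dist x y ≤ dist (R k x) (R k y) ∧ dist (R k x) (R k y) ≤ 3 / 2 * dist x y := by
  have h1 := S_est' (qq_pos k) (x - c k) (y - c k)
  unfold B at h
  rw [mem_ball, not_lt, dist_eq_norm] at h
  rw [g_one (qq_pos k) ((qq_le k).trans (by norm_num)) (h.trans (le_max_right _ _)),
    sub_sub_sub_cancel_right, mul_one, mul_one, ← R_sub, ← dist_eq_norm, ← dist_eq_norm] at h1
  exact h1

open Classical in
/-- the map -/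
noncomputable def f (x : E) : E := if h : ∃ k, x ∈ B k then R h.choose x else x

lemma f_in {k : ℕ} {x : E} (h : x ∈ B k) : f x = R k x := by
  have h' : ∃ k, x ∈ B k := ⟨k, h⟩
  unfold f
  rw [dif_pos h']
  rw [B_disj h'.choose_spec h]

lemma f_out {x : E} (h : ∀ k, x ∉ B k) : f x = x := by
  unfold f
  rw [dif_neg]
  rintro ⟨k, hk⟩
  exact h k hk

lemma f_far {x y : E} (h : ∀ k, ¬ (x ∈ B k ∧ y ∈ B k)) :
    1 / 4 * dist x y ≤ dist (f x) (f y) ∧ dist (f x) (f y) ≤ 9 / 4 * dist x y := by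
  have hd := dist_nonneg (x := x) (y := y)
  by_cases hx : ∃ k, x ∈ B k
  · obtain ⟨k, hk⟩ := hx
    have hyk : y ∉ B k := fun hy => h k ⟨hk, hy⟩
    obtain ⟨a1, a2⟩ := R_est_out (x := x) hyk
    by_cases hy : ∃ l, y ∈ B l
    · obtain ⟨l, hl⟩ := hy
      have hkl : k ≠ l := by rintro rfl; exact hyk hl
      have h1 : R k x ∉ B l := fun h2 => hkl (B_disj (R_in hk) h2)
      obtain ⟨b1, b2⟩ := R_est_out (x := y) h1
      rw [R_out h1] at b1 b2
      rw [R_out hyk] at a1 a2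
      rw [f_in hk, f_in hl, dist_comm (R k x)]
      rw [dist_comm y] at b1 b2
      constructor <;> linarith
    · rw [f_in hk, f_out (fun l hl => hy ⟨l, hl⟩)]
      rw [R_out hyk] at a1 a2
      constructor <;> linarith
  · by_cases hy : ∃ l, y ∈ B l
    · obtain ⟨l, hl⟩ := hy
      have hxl : x ∉ B l := fun hx' => hx ⟨l, hx'⟩
      obtain ⟨a1, a2⟩ := R_est_out (x := y) hxl
      rw [R_out hxl] at a1 a2
      rw [f_in hl, f_out (fun l hl => hx ⟨l, hl⟩), dist_comm x, dist_comm x]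
      constructor <;> linarith
    · rw [f_out (fun l hl => hx ⟨l, hl⟩), f_out (fun l hl => hy ⟨l, hl⟩)]
      constructor <;> linarith

/-- the estimate in a common ball -/
lemma f_near {k : ℕ} {x y : E} (hx : x ∈ B k) (hy : y ∈ B k) :
    1 / 2 * g (qq k) (max ‖x - c k‖ ‖y - c k‖) * dist x y ≤ dist (f x) (f y) ∧
      dist (f x) (f y) ≤ 3 / 2 * g (qq k) (max ‖x - c k‖ ‖y - c k‖) * dist x y := by
  have h1 := S_est' (qq_pos k) (x - c k) (y - c k)
  rw [f_in hx, f_in hy, dist_eq_norm, dist_eq_norm, R_sub]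
  rw [sub_sub_sub_cancel_right] at h1
  exact h1

lemma f_inj : Function.Injective f := by
  intro x y hxy
  by_contra hne
  have hd : 0 < dist x y := dist_pos.mpr hne
  by_cases h : ∀ k, ¬ (x ∈ B k ∧ y ∈ B k)
  · have := (f_far h).1
    rw [hxy, dist_self] at this
    linarith
  · push Not at h
    obtain ⟨k, hx, hy⟩ := h
    have := (f_near hx hy).1
    rw [hxy, dist_self] at this
    have hg := g_pos (qq_pos k) (max ‖x - c k‖ ‖y - c k‖)
    have : 0 < 1 / 2 * g (qq k) (max ‖x - c k‖ ‖y - c k‖) * dist x y := by positivity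
    linarith

lemma g_holder {q : ℝ} (hq : 0 < q) {M d : ℝ} (hM : M < q ^ 2) (hd0 : 0 ≤ d)
    (hd : d ≤ 2 * M) : g q M * d ≤ 2 * d ^ (3 / 4 : ℝ) := by
  rcases eq_or_lt_of_le hd0 with h0 | h0
  · rw [← h0, mul_zero]
    positivity
  have hq2 : 0 < q ^ 2 := by positivity
  have h1 : M / q ^ 2 < 1 := by rw [div_lt_one hq2]; exact hM
  have h3 : M ≤ q ^ 2 * m q M := by
    have h4 : M / q ^ 2 ≤ m q M := by
      unfold m
      rw [min_eq_left h1.le]; exact le_max_right _ _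
    rw [div_le_iff₀ hq2] at h4; linarith
  obtain ⟨α, hα⟩ : ∃ α, α = Real.sqrt (m q M) := ⟨_, rfl⟩
  have hα0 : 0 < α := by rw [hα]; exact Real.sqrt_pos.mpr (m_pos hq _)
  have hα2 : m q M = α ^ 2 := by rw [hα, Real.sq_sqrt (m_pos hq _).le]
  have hqα : q ≤ α := by
    have := m_ge (q := q) M
    rw [hα2] at this
    exact le_of_sq_le_sq this hα0.le
  rw [hα2] at h3
  unfold g
  rw [← hα]
  have h5 : d = d ^ (1 / 4 : ℝ) * d ^ (3 / 4 : ℝ) := by
    rw [← Real.rpow_add h0]; norm_num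
  have h6 : d ^ (1 / 4 : ℝ) ≤ 2 * α := by
    have h7 : d ≤ (2 * α) ^ 4 := by
      have : q ^ 2 ≤ α ^ 2 := by gcongr
      nlinarith [pow_pos hα0 4, mul_le_mul_of_nonneg_right this (sq_nonneg α)]
    calc d ^ (1 / 4 : ℝ) ≤ ((2 * α) ^ 4) ^ (1 / 4 : ℝ) := by gcongr
      _ = 2 * α := by
        rw [← Real.rpow_natCast, ← Real.rpow_mul (by positivity)]
        norm_num
  calc 1 / α * d = 1 / α * (d ^ (1 / 4 : ℝ) * d ^ (3 / 4 : ℝ)) := by rw [← h5]
    _ ≤ 1 / α * (2 * α * d ^ (3 / 4 : ℝ)) := by gcongr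
    _ = 2 * d ^ (3 / 4 : ℝ) := by field_simp

lemma f_holder {D : ℝ} (x y : E) (hD : dist x y ≤ D) :
    dist (f x) (f y) ≤ (3 + 9 / 4 * D ^ (1 / 4 : ℝ)) * dist x y ^ (3 / 4 : ℝ) := by
  have hd := dist_nonneg (x := x) (y := y)
  have hD0 : 0 ≤ D := hd.trans hD
  have hp : 0 ≤ dist x y ^ (3 / 4 : ℝ) := by positivity
  have hp2 : 0 ≤ D ^ (1 / 4 : ℝ) := by positivity
  by_cases h : ∀ k, ¬ (x ∈ B k ∧ y ∈ B k)
  · refine (f_far h).2.trans ?_
    have h1 : dist x y ≤ D ^ (1 / 4 : ℝ) * dist x y ^ (3 / 4 : ℝ) := by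
      rcases eq_or_lt_of_le hd with h0 | h0
      · rw [← h0]; positivity
      calc dist x y = dist x y ^ (1 / 4 : ℝ) * dist x y ^ (3 / 4 : ℝ) := by
            rw [← Real.rpow_add h0]; norm_num
        _ ≤ _ := by gcongr
    nlinarith
  · push Not at h
    obtain ⟨k, hx, hy⟩ := h
    have h1 := (f_near hx hy).2
    have hM : max ‖x - c k‖ ‖y - c k‖ < qq k ^ 2 := by
      unfold B at hx hy
      rw [mem_ball, dist_eq_norm] at hx hy
      exact max_lt hx hy
    have h2 : dist x y ≤ 2 * max ‖x - c k‖ ‖y - c k‖ := by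
      have := dist_triangle_right x y (c k)
      rw [dist_eq_norm x (c k), dist_eq_norm y (c k)] at this
      have := le_max_left ‖x - c k‖ ‖y - c k‖
      have := le_max_right ‖x - c k‖ ‖y - c k‖
      linarith
    have h3 := g_holder (qq_pos k) hM hd h2
    nlinarith

lemma f_cont : Continuous f := by
  rw [Metric.continuous_iff]
  intro b ε hε
  obtain ⟨C, hC⟩ : ∃ C : ℝ, C = 3 + 9 / 4 * (1 : ℝ) ^ (1 / 4 : ℝ) := ⟨_, rfl⟩
  have hC0 : 0 < C := by rw [hC]; positivity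
  refine ⟨min 1 ((ε / C) ^ (4 / 3 : ℝ)), by positivity, fun a ha => ?_⟩
  have h1 : dist a b ≤ 1 := (ha.trans_le (min_le_left _ _)).le
  have h2 : dist a b < (ε / C) ^ (4 / 3 : ℝ) := ha.trans_le (min_le_right _ _)
  have h3 := f_holder a b h1
  rw [← hC] at h3
  have h4 : dist a b ^ (3 / 4 : ℝ) < ε / C := by
    calc dist a b ^ (3 / 4 : ℝ) < ((ε / C) ^ (4 / 3 : ℝ)) ^ (3 / 4 : ℝ) := by
          apply Real.rpow_lt_rpow dist_nonneg h2 (by norm_num)
      _ = ε / C := by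
        rw [← Real.rpow_mul (by positivity)]
        norm_num
  calc dist (f a) (f b) ≤ C * dist a b ^ (3 / 4 : ℝ) := h3
    _ < C * (ε / C) := by gcongr
    _ = ε := by field_simp

lemma m_lip {q : ℝ} (hq : 0 < q) {s r : ℝ} (hr : 0 ≤ r) : m q (s + r) ≤ m q s + r / q ^ 2 := by
  have hq2 : 0 < q ^ 2 := by positivity
  have h0 : 0 ≤ r / q ^ 2 := by positivity
  have h1 : q ^ 2 ≤ m q s := m_ge s
  have h2 : min (s / q ^ 2) 1 ≤ m q s := le_max_right _ _
  rw [show m q (s + r) = max (q ^ 2) (min ((s + r) / q ^ 2) 1) from rfl]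
  apply max_le
  · linarith
  · rw [add_div]
    rcases le_total (s / q ^ 2) 1 with h3 | h3
    · rw [min_eq_left h3] at h2
      exact (min_le_left _ _).trans (by linarith)
    · rw [min_eq_right h3] at h2
      exact (min_le_right _ _).trans (by linarith)

lemma g_comp {q : ℝ} (hq : 0 < q) {s r : ℝ} (hr : 0 ≤ r) (hr2 : r ≤ q ^ 4) :
    g q s ≤ 3 * g q (s + r) := by
  have hq2 : 0 < q ^ 2 := by positivity
  have h1 := m_lip hq (s := s) hr
  have h2 := m_ge (q := q) s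
  have h3 : r / q ^ 2 ≤ q ^ 2 := by
    rw [div_le_iff₀ hq2]
    calc r ≤ q ^ 4 := hr2
      _ = _ := by ring
  have h4 : m q (s + r) ≤ 9 * m q s := by
    have := m_pos hq s
    linarith
  have h5 : Real.sqrt (m q (s + r)) ≤ 3 * Real.sqrt (m q s) := by
    calc Real.sqrt (m q (s + r)) ≤ Real.sqrt (9 * m q s) := Real.sqrt_le_sqrt h4
      _ = 3 * Real.sqrt (m q s) := by
        rw [Real.sqrt_mul (by norm_num)]
        congr 1
        rw [show (9 : ℝ) = 3 ^ 2 by norm_num, Real.sqrt_sq (by norm_num)]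
  have h6 := Real.sqrt_pos.mpr (m_pos hq s)
  have h7 := Real.sqrt_pos.mpr (m_pos hq (s + r))
  unfold g
  rw [mul_one_div, div_le_div_iff₀ h6 h7]
  linarith

lemma f_dil (x : E) : ∀ᶠ r in nhdsWithin (0 : ℝ) (Set.Ioi 0), ∀ y z : E, dist y x = r →
    dist z x = r → dist (f y) (f x) ≤ 9 * dist (f z) (f x) := by
  by_cases hx : ∃ k, x ∈ B k
  · obtain ⟨k, hk⟩ := hx
    have hk' := hk
    unfold B at hk'
    rw [mem_ball] at hk'
    have hpos : 0 < min (qq k ^ 4) (qq k ^ 2 - dist x (c k)) := by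
      have := qq_pos k
      apply lt_min (by positivity)
      linarith
    have h1 : Set.Ioo (0 : ℝ) (min (qq k ^ 4) (qq k ^ 2 - dist x (c k))) ∈
        nhdsWithin (0 : ℝ) (Set.Ioi 0) := Ioo_mem_nhdsGT hpos
    filter_upwards [h1] with r hr y z hy hz
    have hr1 : r < qq k ^ 4 := hr.2.trans_le (min_le_left _ _)
    have hr2 : r < qq k ^ 2 - dist x (c k) := hr.2.trans_le (min_le_right _ _)
    have hr0 := hr.1
    have hyB : y ∈ B k := by
      unfold B; rw [mem_ball]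
      have := dist_triangle y x (c k)
      linarith
    have hzB : z ∈ B k := by
      unfold B; rw [mem_ball]
      have := dist_triangle z x (c k)
      linarith
    have a1 := (f_near hyB hk).2
    have a2 := (f_near hzB hk).1
    have b1 : g (qq k) (max ‖y - c k‖ ‖x - c k‖) ≤ g (qq k) ‖x - c k‖ :=
      g_anti (qq_pos k) (le_max_right _ _)
    have b2 : g (qq k) (‖x - c k‖ + r) ≤ g (qq k) (max ‖z - c k‖ ‖x - c k‖) := by
      apply g_anti (qq_pos k)
      apply max_le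
      · have := dist_triangle z x (c k)
        rw [dist_eq_norm z (c k), dist_eq_norm x (c k)] at this
        linarith
      · linarith
    have b3 := g_comp (qq_pos k) (s := ‖x - c k‖) hr0.le hr1.le
    rw [hy] at a1
    rw [hz] at a2
    have e1 : dist (f y) (f x) ≤ 3 / 2 * g (qq k) ‖x - c k‖ * r := a1.trans (by gcongr)
    have e2 : 1 / 2 * g (qq k) (‖x - c k‖ + r) * r ≤ dist (f z) (f x) := le_trans (by gcongr) a2
    calc dist (f y) (f x) ≤ 3 / 2 * g (qq k) ‖x - c k‖ * r := e1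
      _ ≤ 3 / 2 * (3 * g (qq k) (‖x - c k‖ + r)) * r := by gcongr
      _ = 9 * (1 / 2 * g (qq k) (‖x - c k‖ + r) * r) := by ring
      _ ≤ 9 * dist (f z) (f x) := by gcongr
  · filter_upwards [self_mem_nhdsWithin] with r hr y z hy hz
    have h1 := (f_far (x := y) (y := x) (fun k h => hx ⟨k, h.2⟩)).2
    have h2 := (f_far (x := z) (y := x) (fun k h => hx ⟨k, h.2⟩)).1
    rw [hy] at h1
    rw [hz] at h2
    linarith

/-- the inner balls -/
def I (k : ℕ) : Set E := ball (c k) (qq k ^ 4)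

lemma I_open (k : ℕ) : IsOpen (I k) := isOpen_ball

lemma I_sub (k : ℕ) : I k ⊆ B k := by
  apply ball_subset_ball
  have h1 := qq_pos k
  have h2 := qq_le k
  have : qq k ^ 2 ≤ 1 := by nlinarith
  nlinarith [sq_nonneg (qq k)]

lemma I_disj {k l : ℕ} (h : k ≠ l) : Disjoint (I k) (I l) := by
  rw [Set.disjoint_left]
  intro x hk hl
  exact h (B_disj (I_sub k hk) (I_sub l hl))

/-- the affine map on the inner ball -/
noncomputable def A (k : ℕ) (x : E) : E := c k + (1 / qq k) • (x - c k)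

lemma f_I {k : ℕ} {x : E} (h : x ∈ I k) : f x = A k x := by
  rw [f_in (I_sub k h)]
  unfold R A S
  unfold I at h
  rw [mem_ball, dist_eq_norm] at h
  rw [g_inner (qq_pos k) h.le]

lemma A_fderiv (k : ℕ) (x v : E) : fderiv ℝ (A k) x v = (1 / qq k) • v := by
  have h : HasFDerivAt (A k) ((1 / qq k) • (ContinuousLinearMap.id ℝ E)) x := by
    unfold A
    exact (((hasFDerivAt_id x).sub_const (c k)).const_smul (1 / qq k)).const_add (c k)
  rw [h.fderiv]
  simp

lemma A_diff (k : ℕ) : Differentiable ℝ (A k) := by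
  unfold A
  fun_prop

lemma A_cont (k : ℕ) : Continuous (A k) := (A_diff k).continuous

/-- integration by parts on the inner ball -/
lemma parts (k : ℕ) {φ : E → ℝ} (h1 : ContDiff ℝ (⊤ : ℕ∞) φ) (h2 : HasCompactSupport φ)
    (h3 : tsupport φ ⊆ I k) (v : E) :
    ∫ x, (fderiv ℝ φ x v) • f x = - ∫ x, φ x • ((1 / qq k) • v) := by
  have e1 : ∫ x, (fderiv ℝ φ x v) • f x = ∫ x, (fderiv ℝ φ x v) • A k x := by
    congr 1
    ext1 x
    by_cases hx : x ∈ tsupport φ
    · rw [f_I (h3 hx)]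
    · have : fderiv ℝ φ x = 0 := by
        have h4 : x ∉ tsupport (fderiv ℝ φ) := fun h => hx (tsupport_fderiv_subset ℝ h)
        exact image_eq_zero_of_notMem_tsupport h4
      rw [this]
      simp
  have c1 : Continuous fun x => fderiv ℝ φ x v :=
    (h1.continuous_fderiv (by simp)).clm_apply continuous_const
  have c2 : HasCompactSupport fun x => fderiv ℝ φ x v := by
    apply h2.fderiv_apply (𝕜 := ℝ)
  have i1 : Integrable fun x => fderiv ℝ φ x v • A k x :=
    (c1.smul (A_cont k)).integrable_of_hasCompactSupport c2.smul_right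
  have i2 : Integrable fun x => φ x • fderiv ℝ (A k) x v := by
    simp only [A_fderiv]
    exact (h1.continuous.smul continuous_const).integrable_of_hasCompactSupport h2.smul_right
  have i3 : Integrable fun x => φ x • A k x :=
    (h1.continuous.smul (A_cont k)).integrable_of_hasCompactSupport h2.smul_right
  have e2 := integral_smul_fderiv_eq_neg_fderiv_smul_of_integrable i1 i2 i3
    (fun x _ => (h1.differentiable (by simp)) x) (fun x _ => A_diff k x)
  simp only [A_fderiv] at e2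
  rw [e1, e2, neg_neg]

lemma vol_I (k : ℕ) : volume (I k) = ENNReal.ofReal (qq k ^ 8) * volume (ball (0 : E) 1) := by
  unfold I
  rw [Measure.addHaar_ball_of_pos _ _ (pow_pos (qq_pos k) 4)]
  congr 2
  simp
  ring

lemma I_sub_ball (k : ℕ) : I k ⊆ closedBall (0 : E) 2 := by
  intro x hx
  unfold I at hx
  rw [mem_ball] at hx
  rw [mem_closedBall]
  have h1 : dist (c k) 0 ≤ 1 := by
    unfold c
    rw [dist_zero_right, norm_smul, Real.norm_eq_abs, abs_of_nonneg (by positivity)]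
    simp
    rw [inv_le_one₀ (by positivity)]
    have : (0 : ℝ) ≤ k := Nat.cast_nonneg k
    linarith
  have h2 : qq k ^ 4 ≤ 1 := pow_le_one₀ (qq_pos k).le ((qq_le k).trans (by norm_num))
  have h3 := dist_triangle x (c k) 0
  linarith

/-- no weak derivative in `L^7` -/
theorem no_weak {G : E → (E →L[ℝ] E)} (hG : LocallyIntegrableOn G Set.univ)
    (hint : ∫⁻ x in closedBall (0 : E) 2, ENNReal.ofReal ‖G x‖ ^ (7 : ℝ) < ⊤)
    (hw : ∀ φ : E → ℝ, ContDiff ℝ (⊤ : ℕ∞) φ → HasCompactSupport φ →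
        tsupport φ ⊆ Set.univ → ∀ v : E, ∫ x, (fderiv ℝ φ x v) • f x = - ∫ x, φ x • (G x v)) :
    False := by
  obtain ⟨e, he⟩ : ∃ e : E, e = EuclideanSpace.single 0 1 := ⟨_, rfl⟩
  have hen : ‖e‖ = 1 := by rw [he]; simp
  have hloc : LocallyIntegrable (fun x => G x e) := by
    rw [locallyIntegrableOn_univ] at hG
    intro x
    obtain ⟨U, hU, hi⟩ := hG x
    exact ⟨U, hU, hi.apply_continuousLinearMap e⟩
  have key : ∀ k, ∀ᵐ x : E, x ∈ I k → G x e - (1 / qq k) • e = 0 := by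
    intro k
    apply (I_open k).ae_eq_zero_of_integral_contDiff_smul_eq_zero
    · exact (hloc.sub (locallyIntegrable_const _)).locallyIntegrableOn _
    · intro φ h1 h2 h3
      have e1 := parts k h1 h2 h3 e
      have e2 := hw φ h1 h2 (Set.subset_univ _) e
      rw [e1, neg_inj] at e2
      simp only [smul_sub]
      rw [integral_sub, e2, sub_self]
      · exact hloc.integrable_smul_left_of_hasCompactSupport h1.continuous h2
      · exact (h1.continuous.smul continuous_const).integrable_of_hasCompactSupport h2.smul_right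
  have low : ∀ k, ENNReal.ofReal (qq k) * volume (ball (0 : E) 1) ≤
      ∫⁻ x in I k, ENNReal.ofReal ‖G x‖ ^ (7 : ℝ) := by
    intro k
    have hq := qq_pos k
    have h1 : ∫⁻ x in I k, ENNReal.ofReal ((1 / qq k) ^ 7) ≤
        ∫⁻ x in I k, ENNReal.ofReal ‖G x‖ ^ (7 : ℝ) := by
      apply lintegral_mono_ae
      rw [ae_restrict_iff' (I_open k).measurableSet]
      filter_upwards [key k] with x hx hxI
      have h2 : G x e = (1 / qq k) • e := sub_eq_zero.mp (hx hxI)
      have h3 : 1 / qq k ≤ ‖G x‖ := by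
        have := (G x).le_opNorm e
        rw [h2, hen, mul_one, norm_smul, hen, mul_one, Real.norm_eq_abs,
          abs_of_pos (by positivity)] at this
        exact this
      rw [ENNReal.ofReal_pow (by positivity), ← ENNReal.rpow_natCast,
        show (((7 : ℕ) : ℝ)) = (7 : ℝ) by norm_num]
      exact ENNReal.rpow_le_rpow (ENNReal.ofReal_le_ofReal h3) (by norm_num)
    rw [setLIntegral_const, vol_I, ← mul_assoc, ← ENNReal.ofReal_mul (by positivity)] at h1
    have h4 : (1 / qq k) ^ 7 * qq k ^ 8 = qq k := by field_simp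
    rwa [h4] at h1
  have hsum : ∑' k, ENNReal.ofReal (qq k) * volume (ball (0 : E) 1) < ⊤ := by
    calc ∑' k, ENNReal.ofReal (qq k) * volume (ball (0 : E) 1)
        ≤ ∑' k, ∫⁻ x in I k, ENNReal.ofReal ‖G x‖ ^ (7 : ℝ) := ENNReal.tsum_le_tsum low
      _ = ∫⁻ x in ⋃ k, I k, ENNReal.ofReal ‖G x‖ ^ (7 : ℝ) := by
        rw [lintegral_iUnion (fun k => (I_open k).measurableSet) (fun k l h => I_disj h)]
      _ ≤ ∫⁻ x in closedBall (0 : E) 2, ENNReal.ofReal ‖G x‖ ^ (7 : ℝ) :=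
        lintegral_mono_set (Set.iUnion_subset I_sub_ball)
      _ < ⊤ := hint
  rw [ENNReal.tsum_mul_right] at hsum
  have hball : volume (ball (0 : E) 1) ≠ 0 := (measure_ball_pos _ _ (by norm_num)).ne'
  have h5 : ∑' k, ENNReal.ofReal (qq k) ≠ ⊤ := by
    intro h
    rw [h, ENNReal.top_mul hball] at hsum
    exact lt_irrefl _ hsum
  have h6 := ENNReal.summable_toReal h5
  have h7 : Summable fun k : ℕ => 1 / ((k : ℝ) + 1) := by
    have h8 : (fun k : ℕ => 1 / ((k : ℝ) + 1)) = fun k : ℕ => 4 * (ENNReal.ofReal (qq k)).toReal := by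
      ext k
      rw [ENNReal.toReal_ofReal (qq_pos k).le]
      unfold qq
      field_simp
    rw [h8]
    exact h6.mul_left 4
  have h9 := (summable_nat_add_iff (f := fun k : ℕ => 1 / (k : ℝ)) 1).mp (by
    simpa using h7)
  exact Real.not_summable_one_div_natCast h9

end Pool.Agent.W803.QC
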