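import Mathlib

/-!
Definitions for the statement on Hölder continuous quasiconformal mappings.
-/

set_option autoImplicit false

open MeasureTheory

namespace Pool.Agent.W803.QCDefs

/-- the plane -/
abbrev Plane := EuclideanSpace ℝ (Fin 2)

/-- Metric quasiconformality on the plane: there is a constant `H` such that, for each point `x`
and all sufficiently small `r > 0`, `|f y - f x| ≤ H |f z - f x|` whenever
`|y - x| = |z - x| = r`. -/
def MetricQC (f : Plane → Plane) : Prop :=
  ∃ H : ℝ, ∀ x, ∀ᶠ r in nhdsWithin (0 : ℝ) (Set.Ioi 0),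
    ∀ y z : Plane, dist y x = r → dist z x = r → dist (f y) (f x) ≤ H * dist (f z) (f x)

/-- Local Hölder continuity with exponent `α` on the plane: for each compact `K` there is `C` with
`|f x - f y| ≤ C |x - y| ^ α` on `K`. -/
def LocHolder (α : ℝ) (f : Plane → Plane) : Prop :=
  ∀ K : Set Plane, IsCompact K → ∃ C : ℝ, ∀ x ∈ K, ∀ y ∈ K, dist (f x) (f y) ≤ C * dist x y ^ α

/-- `g` is locally integrable and is the weak derivative of `f` on the plane. -/
def IsWeakDeriv (f : Plane → Plane) (g : Plane → (Plane →L[ℝ] Plane)) : Prop :=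
  LocallyIntegrable g ∧ ∀ φ : Plane → ℝ, ContDiff ℝ (⊤ : ℕ∞) φ → HasCompactSupport φ →
    ∀ v : Plane, ∫ x, (fderiv ℝ φ x v) • f x = - ∫ x, φ x • (g x v)

/-- The derivative field `g` is in `L^p` on each compact set. -/
def LocLp (p : ℝ) (g : Plane → (Plane →L[ℝ] Plane)) : Prop :=
  ∀ K : Set Plane, IsCompact K → ∫⁻ x in K, ENNReal.ofReal ‖g x‖ ^ p < ⊤

end Pool.Agent.W803.QCDefs
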